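import Mathlib

/-!
Library R509.TT (helper509): from bounds for the averages of `(t - v)_+` to moments.
-/

set_option autoImplicit false

namespace Pool.Agent.R509.TT

open Finset MeasureTheory

/-- slope -/
noncomputable def kap (J : ℕ) : ℝ := 2 / 3 * ((J : ℝ) - 1 / J)

lemma kap_two : kap 2 = 1 := by unfold kap; norm_num
lemma kap_one : kap 1 = 0 := by unfold kap; norm_num

lemma kap_mono {a b : ℕ} (ha : 1 ≤ a) (hab : a ≤ b) : kap a ≤ kap b := by
  unfold kap
  have h1 : (0 : ℝ) < a := by exact_mod_cast ha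
  have h2 : (a : ℝ) ≤ b := by exact_mod_cast hab
  have h3 : 1 / (b : ℝ) ≤ 1 / a := one_div_le_one_div_of_le h1 h2
  linarith

/-- the interpolation inequality -/
lemma interp (J : ℕ) (hJ : 1 ≤ J) (t : ℝ) (h0 : 0 ≤ t) (h1 : t ≤ 1) :
    ((1 - t) * (1 / J) + t * (1 / ((J : ℝ) + 1))) * (((1 - t) * kap J + t * kap (J + 1))) ≤ 2 / 3 := by
  unfold kap
  have hJ0 : (1 : ℝ) ≤ J := by exact_mod_cast hJ
  push_cast
  have e : ((1 - t) * (1 / J) + t * (1 / ((J : ℝ) + 1))) = ((J : ℝ) + 1 - t) / (J * (J + 1)) := by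
    field_simp; ring
  have e2 : ((1 - t) * (2 / 3 * ((J : ℝ) - 1 / J)) + t * (2 / 3 * (((J : ℝ) + 1) - 1 / ((J : ℝ) + 1)))) =
      2 / 3 * ((J + t) - ((J : ℝ) + 1 - t) / (J * (J + 1))) := by
    field_simp; ring
  rw [e, e2]
  have hp : (0 : ℝ) < J * (J + 1) := by positivity
  set P : ℝ := J * (J + 1) with hP
  have h2 : ((J : ℝ) + 1 - t) / P * (2 / 3 * ((J + t) - ((J : ℝ) + 1 - t) / P)) =
      2 / 3 * ((((J : ℝ) + 1 - t) * (P * (J + t) - (J + 1 - t))) / P ^ 2) := by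
    field_simp
  rw [h2]
  have h3 : (((J : ℝ) + 1 - t) * (P * (J + t) - (J + 1 - t))) ≤ P ^ 2 := by
    have e3 : ((J : ℝ) + 1 - t) * (J + t) = P + t * (1 - t) := by rw [hP]; ring
    have e4 : (((J : ℝ) + 1 - t) * (P * (J + t) - (J + 1 - t))) = P ^ 2 + P * (t * (1 - t)) - (J + 1 - t) ^ 2 := by
      calc _ = P * (((J : ℝ) + 1 - t) * (J + t)) - (J + 1 - t) ^ 2 := by ring
        _ = _ := by rw [e3]; ring
    rw [e4]
    have h5 : t * (1 - t) ≤ 1 / 4 := by nlinarith [sq_nonneg (t - 1 / 2)]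
    have h6 : P * (t * (1 - t)) ≤ P * (1 / 4) := mul_le_mul_of_nonneg_left h5 hp.le
    have h7 : P * (1 / 4) ≤ ((J : ℝ) + 1 - t) ^ 2 := by
      rw [hP]
      nlinarith
    linarith
  have h4 : (((J : ℝ) + 1 - t) * (P * (J + t) - (J + 1 - t))) / P ^ 2 ≤ 1 := by
    rw [div_le_one (by positivity)]
    exact h3
  linarith

/-- the averages of the functions `(1 - κ v)_+` -/
lemma hinge_avg {ι : Type} (I : Finset ι) (v : ι → ℝ) (b : ℕ → ι → ℝ) (K : ℕ) (δ N : ℝ) (hN : (I.card : ℝ) = N)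
    (hb0 : ∀ J x, 0 ≤ b J x) (hδ : 0 ≤ δ)
    (hb1 : ∀ J, 2 ≤ J → J ≤ K + 1 → ∀ x ∈ I, 1 - kap J * v x ≤ b J x + δ)
    (hb2 : ∀ J, 2 ≤ J → J ≤ K + 1 → ∑ x ∈ I, b J x ≤ (1 / J + δ) * N)
    (κ : ℝ) (h1 : 1 ≤ κ) (h2 : κ < kap (K + 1)) :
    ∑ x ∈ I, max 0 (1 - κ * v x) ≤ (2 / (3 * κ) + 2 * δ) * N := by
  classical
  have hN0 : 0 ≤ N := by rw [← hN]; positivity
  have hex : ∃ J : ℕ, κ < kap (J + 1) := ⟨K, h2⟩
  set J := Nat.find hex with hJ
  have hJ1 : κ < kap (J + 1) := Nat.find_spec hex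
  have hJ2 : 2 ≤ J := by
    by_contra hcon
    have h3 : kap (J + 1) ≤ 1 := by
      rw [← kap_two]
      exact kap_mono (by omega) (by omega)
    linarith
  have hJK : J ≤ K := Nat.find_min' hex h2
  have hJ3 : kap J ≤ κ := by
    have := Nat.find_min hex (show J - 1 < J by omega)
    push Not at this
    rwa [show J - 1 + 1 = J by omega] at this
  set t : ℝ := (κ - kap J) / (kap (J + 1) - kap J) with ht
  have hd : 0 < kap (J + 1) - kap J := by linarith
  have ht0 : 0 ≤ t := div_nonneg (by linarith) hd.le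
  have ht1 : t ≤ 1 := by rw [ht, div_le_one hd]; linarith
  have hκ : κ = (1 - t) * kap J + t * kap (J + 1) := by
    have : t * (kap (J + 1) - kap J) = κ - kap J := by rw [ht]; field_simp
    linarith
  have h3 : ∀ x ∈ I, max 0 (1 - κ * v x) ≤ (1 - t) * b J x + t * b (J + 1) x + δ := by
    intro x hx
    have h4 := hb1 J hJ2 (by omega) x hx
    have h5 := hb1 (J + 1) (by omega) (by omega) x hx
    have h6 := hb0 J x
    have h7 := hb0 (J + 1) x
    apply max_le
    · have := mul_nonneg (sub_nonneg.2 ht1) h6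
      have := mul_nonneg ht0 h7
      linarith
    · have h8 := mul_le_mul_of_nonneg_left h4 (sub_nonneg.2 ht1)
      have h9 := mul_le_mul_of_nonneg_left h5 ht0
      have e : 1 - κ * v x = (1 - t) * (1 - kap J * v x) + t * (1 - kap (J + 1) * v x) := by rw [hκ]; ring
      rw [e]
      linarith
  refine (sum_le_sum h3).trans ?_
  rw [sum_add_distrib, sum_add_distrib, ← mul_sum, ← mul_sum, sum_const, nsmul_eq_mul, hN]
  have h4 := mul_le_mul_of_nonneg_left (hb2 J hJ2 (by omega)) (sub_nonneg.2 ht1)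
  have h5 := mul_le_mul_of_nonneg_left (hb2 (J + 1) (by omega) (by omega)) ht0
  have h6 := interp J (by omega) t ht0 ht1
  rw [← hκ] at h6
  have h7 : (1 - t) * (1 / J) + t * (1 / ((J : ℝ) + 1)) ≤ 2 / (3 * κ) := by
    rw [le_div_iff₀ (by positivity)]
    linarith
  push_cast at h5
  have h8 := mul_le_mul_of_nonneg_right h7 hN0
  nlinarith

/-- representation of the powers -/
lemma rep (i : ℕ) (v : ℝ) (h0 : 0 ≤ v) (h1 : v ≤ 1) :
    ∫ t in (0 : ℝ)..1, (i + 2) * (i + 1) * (1 - t) ^ i * max 0 (t - v) = (1 - v) ^ (i + 2) := by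
  have hc : Continuous fun t : ℝ => ((i : ℝ) + 2) * (i + 1) * (1 - t) ^ i * max 0 (t - v) := by fun_prop
  rw [← intervalIntegral.integral_add_adjacent_intervals (hc.intervalIntegrable 0 v) (hc.intervalIntegrable v 1)]
  have h2 : ∫ t in (0 : ℝ)..v, ((i : ℝ) + 2) * (i + 1) * (1 - t) ^ i * max 0 (t - v) = 0 := by
    rw [intervalIntegral.integral_congr (g := fun _ => 0)]
    · simp
    · intro t ht
      rw [Set.uIcc_of_le h0, Set.mem_Icc] at ht
      simp only
      rw [max_eq_left (by linarith), mul_zero]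
  have h3 : ∫ t in v..1, ((i : ℝ) + 2) * (i + 1) * (1 - t) ^ i * max 0 (t - v) =
      ∫ t in v..1, ((i : ℝ) + 2) * (i + 1) * (1 - t) ^ i * (t - v) := by
    apply intervalIntegral.integral_congr
    intro t ht
    rw [Set.uIcc_of_le h1, Set.mem_Icc] at ht
    simp only
    rw [max_eq_right (by linarith)]
  rw [h2, h3, zero_add]
  have h4 : ∀ t ∈ Set.uIcc v 1, HasDerivAt (fun t : ℝ => -((i : ℝ) + 2) * (1 - t) ^ (i + 1) * (t - v) - (1 - t) ^ (i + 2))
      (((i : ℝ) + 2) * (i + 1) * (1 - t) ^ i * (t - v)) t := by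
    intro t _
    have h5 : HasDerivAt (fun t : ℝ => 1 - t) (-1) t := by
      simpa using (hasDerivAt_id t).const_sub 1
    have h6 := h5.pow (i + 1)
    have h7 := h5.pow (i + 2)
    have h8 : HasDerivAt (fun t : ℝ => t - v) 1 t := (hasDerivAt_id t).sub_const v
    have h9 := (((h6.const_mul (-((i : ℝ) + 2))).mul h8).sub h7)
    refine h9.congr_deriv ?_
    simp only [Pi.pow_apply]
    rw [show i + 1 - 1 = i by omega, show i + 2 - 1 = i + 1 by omega]
    push_cast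
    ring
  rw [intervalIntegral.integral_eq_sub_of_hasDerivAt h4 (by
    apply Continuous.intervalIntegrable
    fun_prop)]
  simp

lemma rep2 (i : ℕ) (c : ℝ) :
    ∫ t in (0 : ℝ)..1, (i + 2) * (i + 1) * (1 - t) ^ i * (2 / 3 * t ^ 2 + c) = 4 / (3 * (i + 3)) + c * (i + 2) := by
  have h4 : ∀ t ∈ Set.uIcc (0 : ℝ) 1, HasDerivAt (fun t : ℝ => -(2 / 3) * (((i : ℝ) + 2) * ((1 - t) ^ (i + 1) * t ^ 2)) +
      -(2 / 3) * (2 * ((1 - t) ^ (i + 2) * t)) + -(2 / 3) * (2 / ((i : ℝ) + 3) * (1 - t) ^ (i + 3)) + -(c * (i + 2)) * (1 - t) ^ (i + 1))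
      (((i : ℝ) + 2) * (i + 1) * (1 - t) ^ i * (2 / 3 * t ^ 2 + c)) t := by
    intro t _
    have h5 : HasDerivAt (fun t : ℝ => 1 - t) (-1) t := by
      simpa using (hasDerivAt_id t).const_sub 1
    have h6 := h5.pow (i + 1)
    have h7 := h5.pow (i + 2)
    have h7' := h5.pow (i + 3)
    have h8 : HasDerivAt (fun t : ℝ => t ^ 2) (2 * t) t := by simpa using hasDerivAt_pow 2 t
    have h8' : HasDerivAt (fun t : ℝ => t) 1 t := hasDerivAt_id t
    have h9 := ((((h6.mul h8).const_mul ((i : ℝ) + 2)).const_mul (-(2 / 3) : ℝ)).add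
      (((h7.mul h8').const_mul (2 : ℝ)).const_mul (-(2 / 3) : ℝ))).add
      ((h7'.const_mul (2 / ((i : ℝ) + 3))).const_mul (-(2 / 3) : ℝ)) |>.add (h6.const_mul (-(c * ((i : ℝ) + 2))))
    refine h9.congr_deriv ?_
    simp only [Pi.pow_apply]
    rw [show i + 1 - 1 = i by omega, show i + 2 - 1 = i + 1 by omega, show i + 3 - 1 = i + 2 by omega]
    push_cast
    have h10 : (i : ℝ) + 3 ≠ 0 := by positivity
    field_simp
    ring
  rw [intervalIntegral.integral_eq_sub_of_hasDerivAt h4 (by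
    apply Continuous.intervalIntegrable
    fun_prop)]
  have h10 : (i : ℝ) + 3 ≠ 0 := by positivity
  simp
  field_simp
  ring

/-- moments from hinges -/
lemma moments {ι : Type} (I : Finset ι) (v : ι → ℝ) (hv : ∀ x ∈ I, 0 ≤ v x ∧ v x ≤ 1) (c : ℝ) (i : ℕ)
    (h : ∀ t : ℝ, 0 ≤ t → t ≤ 1 → ∑ x ∈ I, max 0 (t - v x) ≤ (2 / 3 * t ^ 2 + c) * I.card) :
    ∑ x ∈ I, (1 - v x) ^ (i + 2) ≤ (4 / (3 * (i + 3)) + c * (i + 2)) * I.card := by
  have h1 : ∑ x ∈ I, (1 - v x) ^ (i + 2) = ∫ t in (0 : ℝ)..1, (i + 2) * (i + 1) * (1 - t) ^ i * ∑ x ∈ I, max 0 (t - v x) := by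
    rw [sum_congr rfl fun x hx => (rep i (v x) (hv x hx).1 (hv x hx).2).symm]
    rw [← intervalIntegral.integral_finsetSum]
    · apply intervalIntegral.integral_congr
      intro t _
      simp only
      rw [mul_sum]
    · intro x _
      apply Continuous.intervalIntegrable
      fun_prop
  rw [h1, ← rep2, ← intervalIntegral.integral_mul_const]
  apply intervalIntegral.integral_mono_on (by norm_num)
  · apply Continuous.intervalIntegrable
    fun_prop
  · apply Continuous.intervalIntegrable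
    fun_prop
  · intro t ht
    rw [Set.mem_Icc] at ht
    have h2 := h t ht.1 ht.2
    have h3 : 0 ≤ ((i : ℝ) + 2) * (i + 1) * (1 - t) ^ i := by
      have : 0 ≤ 1 - t := by linarith
      positivity
    have := mul_le_mul_of_nonneg_left h2 h3
    linarith

end Pool.Agent.R509.TT
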