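import Pool.Agent.R509.TT.Hinge
import Pool.Agent.R509.TT.Mom

/-!
Library R509.TT (helper509): all the moments of the local means of `(1 + λ(n) λ(n + m)) / 2` at
almost all scales.
-/

set_option autoImplicit false

namespace Pool.Agent.R509.TT

open Finset
open Pool.Agent.Y958.U (LZ)

/-- the property of the exceptional set -/
def Exc (E : Set ℕ) : Prop := ∀ h : ℕ, 1 ≤ h → ∀ δ : ℝ, 0 < δ →
    ∃ N₀ : ℕ, ∀ N : ℕ, N₀ ≤ N → N ∉ E → |∑ n ∈ range N, l n * l (n + h)| ≤ δ * N

/-- the average of the squares -/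
lemma aJ_upper (J m H N : ℕ) (δ : ℝ) (hδ : 0 ≤ δ) (hJm : ((J * m : ℕ) : ℝ) ≤ δ * H)
    (h : ∀ d, 1 ≤ d → d ≤ J → |∑ x ∈ Icc 1 N, W (pp (d * m)) H x| ≤ δ * H * N) :
    ∑ x ∈ Icc 1 N, W (aJ J m) H x ≤ (J + 3 * δ * J ^ 2) * H * N := by
  have h1 : ∀ x, W (aJ J m) H x = ∑ i ∈ range J, ∑ j ∈ range J, W (fun n => l (n + i * m) * l (n + j * m)) H x := by
    intro x
    unfold W aJ
    simp only [sq, sum_mul_sum]
    rw [sum_comm]
    apply sum_congr rfl
    intro i _
    rw [sum_comm]
  simp only [h1]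
  rw [sum_comm]
  have h2 : ∀ i ∈ range J, ∑ x ∈ Icc 1 N, ∑ j ∈ range J, W (fun n => l (n + i * m) * l (n + j * m)) H x ≤
      (1 + 3 * δ * J) * H * N := by
    intro i hi
    rw [sum_comm, ← add_sum_erase _ _ hi]
    have h3 : ∑ x ∈ Icc 1 N, W (fun n => l (n + i * m) * l (n + i * m)) H x = H * N := by
      have : (fun n => l (n + i * m) * l (n + i * m)) = fun _ => (1 : ℝ) := by
        funext n; exact l_pm.sq _
      rw [this]
      simp only [W_one, sum_const, Nat.card_Icc, Nat.add_sub_cancel, nsmul_eq_mul]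
      ring
    have h4 : ∀ j ∈ (range J).erase i, ∑ x ∈ Icc 1 N, W (fun n => l (n + i * m) * l (n + j * m)) H x ≤ 3 * δ * H * N := by
      have key : ∀ a d : ℕ, 1 ≤ d → a + d ≤ J →
          ∑ x ∈ Icc 1 N, W (fun n => l (n + a * m) * l (n + (a + d) * m)) H x ≤ 3 * δ * H * N := by
        intro a d hd hdJ
        have h5 : (fun n => l (n + a * m) * l (n + (a + d) * m)) = fun n => pp (d * m) (n + a * m) := by
          funext n
          unfold pp
          congr 2
          ring
        rw [h5]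
        have h6 : ∀ x, W (fun n => pp (d * m) (n + a * m)) H x ≤ W (pp (d * m)) H x + 2 * δ * H := by
          intro x
          have h7 := W_shift (fun n => ((pp_pm (d * m)).abs n).le) (a * m) H x
          have h8 := (abs_le.1 h7).2
          have h9 : ((a * m : ℕ) : ℝ) ≤ δ * H := le_trans (by exact_mod_cast Nat.mul_le_mul_right m (by omega)) hJm
          linarith
        refine (sum_le_sum fun x _ => h6 x).trans ?_
        rw [sum_add_distrib, sum_const, Nat.card_Icc, Nat.add_sub_cancel, nsmul_eq_mul]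
        have := (abs_le.1 (h d hd (by omega))).2
        linarith
      intro j hj
      rw [mem_erase, mem_range] at hj
      rw [mem_range] at hi
      rcases lt_or_gt_of_ne hj.1 with hlt | hlt
      · have h5 := key j (i - j) (by omega) (by omega)
        rw [show j + (i - j) = i by omega] at h5
        have h6 : (fun n => l (n + i * m) * l (n + j * m)) = fun n => l (n + j * m) * l (n + i * m) := by
          funext n; ring
        rw [h6]
        exact h5
      · have h5 := key i (j - i) (by omega) (by omega)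
        rwa [show i + (j - i) = j by omega] at h5
    have h5 := sum_le_sum h4
    rw [sum_const, nsmul_eq_mul] at h5
    have h6 : ((((range J).erase i).card : ℕ) : ℝ) ≤ J := by
      have := card_erase_le (s := range J) (a := i)
      rw [card_range] at this
      exact_mod_cast this
    have h7 : 0 ≤ 3 * δ * H * N := by positivity
    have h8 := mul_le_mul_of_nonneg_right h6 h7
    rw [h3]
    linarith
  refine (sum_le_sum h2).trans (le_of_eq ?_)
  rw [sum_const, card_range, nsmul_eq_mul]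
  ring

/-- the constants -/
noncomputable def cst (j : ℕ) : ℝ := if j ≤ 2 then 1 / ((j : ℝ) + 1) else 4 / (3 * ((j : ℝ) + 1))

lemma mom_ge (E : Set ℕ) (hE : Exc E) (m : ℕ) (hm : 1 ≤ m) (i : ℕ) (ε : ℝ) (hε : 0 < ε) :
    ∃ C : ℕ, ∀ H N : ℕ, C ≤ H → C * H ≤ N → N ∉ E →
      ∑ x ∈ Icc 1 N, ((1 + W (pp m) H x / H) / 2) ^ (i + 2) ≤ (4 / (3 * (i + 3)) + ε) * N := by
  set c : ℝ := ε / (i + 2) with hc
  have hc0 : 0 < c := by positivity
  obtain ⟨K, hK⟩ := exists_nat_ge (3 / c + 3)
  have hK3 : (3 : ℝ) ≤ K := by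
    have : 0 < 3 / c := by positivity
    linarith
  have hK2 : 2 ≤ K := by
    have : (3 : ℕ) ≤ K := by exact_mod_cast hK3
    omega
  have hkap : 1 / c < kap (K + 1) := by
    unfold kap
    push_cast
    have h1 : 1 / ((K : ℝ) + 1) ≤ 1 := by rw [div_le_one (by positivity)]; linarith
    have h2 : 3 / c = 3 * (1 / c) := by ring
    have h3 : 0 < 1 / c := by positivity
    nlinarith
  set δ : ℝ := c / 6 with hδ
  have hδ0 : 0 < δ := by positivity
  choose! C1 hC1 using fun d (hd : 1 ≤ d) => msq E hE (d * m) (Nat.mul_pos hd hm) δ hδ0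
  obtain ⟨C2, hC2⟩ := exists_nat_ge (3 * ((K : ℝ) + 1) ^ 2 * m / δ)
  refine ⟨∑ d ∈ range (K + 2), C1 d + C2 + 1, fun H N hH hN hNE => ?_⟩
  have hH0 : (0 : ℝ) < H := by exact_mod_cast (by omega : 0 < H)
  have hC1' : ∀ d, 1 ≤ d → d ≤ K + 1 → |∑ x ∈ Icc 1 N, W (pp (d * m)) H x| ≤ δ * H * N := by
    intro d hd hdK
    have h1 : C1 d ≤ ∑ d ∈ range (K + 2), C1 d :=
      single_le_sum (f := C1) (fun _ _ => Nat.zero_le _) (mem_range.2 (by omega))
    exact (hC1 d hd H N (by omega) (le_trans (Nat.mul_le_mul_right H (by omega)) hN) hNE).1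
  have hC2' : 3 * ((K : ℝ) + 1) ^ 2 * m ≤ δ * H := by
    rw [div_le_iff₀ hδ0] at hC2
    refine hC2.trans ?_
    rw [mul_comm]
    apply mul_le_mul_of_nonneg_left _ hδ0.le
    exact_mod_cast (by omega : C2 ≤ H)
  have hm0 : (0 : ℝ) ≤ m := Nat.cast_nonneg m
  set v : ℕ → ℝ := fun x => (1 - W (pp m) H x / H) / 2 with hv
  have hvq : ∀ x, v x = W (qq m) H x / (2 * H) := by
    intro x
    have : W (qq m) H x = H - W (pp m) H x := by
      unfold W qq
      rw [sum_sub_distrib]
      simp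
    rw [this, hv]
    field_simp
  have hv01 : ∀ x ∈ Icc 1 N, 0 ≤ v x ∧ v x ≤ 1 := by
    intro x _
    have h1 := abs_le.1 (W_abs_le (fun n => ((pp_pm m).abs n).le) H x)
    have h2 : W (pp m) H x / H ≤ 1 := by rw [div_le_one hH0]; exact h1.2
    have h3 : -1 ≤ W (pp m) H x / H := by rw [le_div_iff₀ hH0]; linarith
    rw [hv]
    constructor <;> simp only <;> linarith
  have hNc : ((Icc 1 N).card : ℝ) = N := by simp
  have hav := hinge_avg (Icc 1 N) v (fun J x => W (aJ J m) H x / (J ^ 2 * H)) K (3 * δ) N hNc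
    (fun J x => div_nonneg (by unfold W aJ; exact sum_nonneg fun _ _ => sq_nonneg _) (by positivity)) (by positivity)
    (by
      intro J hJ hJK x _
      have hJ0 : (0 : ℝ) < J := by exact_mod_cast (by omega : 0 < J)
      have hJK' : (J : ℝ) ≤ K + 1 := by exact_mod_cast hJK
      have h1 := aJ_lower J m H x
      have h2 : W (qq m) H x = 2 * H * v x := by rw [hvq]; field_simp
      rw [h2] at h1
      unfold kap
      have h3 : 1 - W (aJ J m) H x / (J ^ 2 * H) = (J ^ 2 * H - W (aJ J m) H x) / (J ^ 2 * H) := by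
        field_simp
      have h4 : (J ^ 2 * H - W (aJ J m) H x) / (J ^ 2 * H) ≤ (((J : ℝ) ^ 3 - J) / 3 * (2 * H * v x + 8 * (J * m))) / (J ^ 2 * H) :=
        div_le_div_of_nonneg_right h1 (by positivity)
      have h5 : (((J : ℝ) ^ 3 - J) / 3 * (2 * H * v x + 8 * (J * m))) / (J ^ 2 * H) =
          2 / 3 * ((J : ℝ) - 1 / J) * v x + (((J : ℝ) ^ 2 - 1) / 3 * (8 * m)) / H := by
        field_simp
      have h6 : (((J : ℝ) ^ 2 - 1) / 3 * (8 * m)) / H ≤ 3 * δ := by
        rw [div_le_iff₀ hH0]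
        have : ((J : ℝ)) ^ 2 ≤ (K + 1) ^ 2 := pow_le_pow_left₀ hJ0.le hJK' 2
        nlinarith
      linarith)
    (by
      intro J hJ hJK
      have hJ0 : (0 : ℝ) < J := by exact_mod_cast (by omega : 0 < J)
      have hJK' : (J : ℝ) ≤ K + 1 := by exact_mod_cast hJK
      have h1 := aJ_upper J m H N δ hδ0.le (by
        refine le_trans ?_ hC2'
        push_cast
        apply mul_le_mul_of_nonneg_right _ hm0
        nlinarith) (fun d hd hdJ => hC1' d hd (by omega))
      rw [← sum_div, div_le_iff₀ (by positivity)]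
      refine h1.trans (le_of_eq ?_)
      field_simp)
  have h1 : ∑ x ∈ Icc 1 N, ((1 + W (pp m) H x / H) / 2) ^ (i + 2) = ∑ x ∈ Icc 1 N, (1 - v x) ^ (i + 2) := by
    apply sum_congr rfl
    intro x _
    rw [hv]
    congr 1
    ring
  rw [h1]
  have h2 := moments (Icc 1 N) v hv01 c i (by
    intro t ht0 ht1
    rw [hNc]
    have hN0 : (0 : ℝ) ≤ N := Nat.cast_nonneg N
    rcases le_or_gt t c with htc | htc
    · have h3 : ∀ x ∈ Icc 1 N, max 0 (t - v x) ≤ c := by
        intro x hx
        apply max_le hc0.le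
        have := (hv01 x hx).1
        linarith
      refine (sum_le_sum h3).trans ?_
      rw [sum_const, nsmul_eq_mul, hNc]
      have : 0 ≤ 2 / 3 * t ^ 2 * N := by positivity
      nlinarith
    · have ht : 0 < t := lt_trans hc0 htc
      have h3 : ∀ x ∈ Icc 1 N, max 0 (t - v x) = t * max 0 (1 - 1 / t * v x) := by
        intro x _
        rw [mul_max_of_nonneg _ _ ht.le, mul_zero]
        congr 1
        field_simp
      rw [sum_congr rfl h3, ← mul_sum]
      have h4 := hav (1 / t) (by rw [le_div_iff₀ ht]; linarith) (lt_of_lt_of_le' hkap (by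
        apply one_div_le_one_div_of_le hc0 htc.le))
      refine (mul_le_mul_of_nonneg_left h4 ht.le).trans ?_
      have e : t * ((2 / (3 * (1 / t)) + 2 * (3 * δ)) * N) = (2 / 3 * t ^ 2 + c * t) * N := by
        rw [hδ]; field_simp; ring
      rw [e]
      apply mul_le_mul_of_nonneg_right _ hN0
      nlinarith)
  rw [hNc] at h2
  refine h2.trans (le_of_eq ?_)
  rw [hc]
  field_simp

/-- **all the moments** -/
theorem allmom (E : Set ℕ) (hE : Exc E) (m : ℕ) (hm : 1 ≤ m) (j : ℕ) (ε : ℝ) (hε : 0 < ε) :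
    ∃ C : ℕ, ∀ H N : ℕ, C ≤ H → C * H ≤ N → N ∉ E →
      ∑ x ∈ Icc 1 N, ((1 + W (pp m) H x / H) / 2) ^ j ≤ (cst j + ε) * N := by
  rcases Nat.lt_or_ge 2 j with hj | hj
  · obtain ⟨i, rfl⟩ := Nat.exists_eq_add_of_le (show 2 ≤ j by omega)
    obtain ⟨C, hC⟩ := mom_ge E hE m hm i ε hε
    refine ⟨C, fun H N hH hN hNE => ?_⟩
    have h1 := hC H N hH hN hNE
    rw [add_comm 2 i]
    unfold cst
    rw [if_neg (by omega)]
    push_cast
    have : ((i : ℝ) + 2 + 1) = i + 3 := by ring
    rw [this]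
    exact h1
  · obtain ⟨C, hC⟩ := msq E hE m hm ε hε
    refine ⟨C + 1, fun H N hH hN hNE => ?_⟩
    obtain ⟨h1, h2⟩ := hC H N (by omega) (le_trans (Nat.mul_le_mul_right H (by omega)) hN) hNE
    have hH0 : (0 : ℝ) < H := by exact_mod_cast (by omega : 0 < H)
    have hN0 : (0 : ℝ) ≤ N := Nat.cast_nonneg N
    unfold cst
    rw [if_pos hj]
    have h3 : ∑ x ∈ Icc 1 N, W (pp m) H x / H ≤ ε * N := by
      rw [← sum_div, div_le_iff₀ hH0]
      have := (abs_le.1 h1).2
      linarith
    interval_cases j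
    · simp
      nlinarith
    · have h4 : ∑ x ∈ Icc 1 N, ((1 + W (pp m) H x / H) / 2) ^ 1 = (N + ∑ x ∈ Icc 1 N, W (pp m) H x / H) / 2 := by
        simp only [pow_one]
        rw [← sum_div, sum_add_distrib]
        simp
      rw [h4]
      push_cast
      nlinarith
    · have h4 : ∑ x ∈ Icc 1 N, ((1 + W (pp m) H x / H) / 2) ^ 2 =
          (N + 2 * ∑ x ∈ Icc 1 N, W (pp m) H x / H + ∑ x ∈ Icc 1 N, (W (pp m) H x / H) ^ 2) / 4 := by
        have : ∀ x ∈ Icc 1 N, ((1 + W (pp m) H x / H) / 2) ^ 2 = (1 + 2 * (W (pp m) H x / H) + (W (pp m) H x / H) ^ 2) / 4 := by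
          intro x _; ring
        rw [sum_congr rfl this, ← sum_div, sum_add_distrib, sum_add_distrib, ← mul_sum]
        simp
      have h5 : ∑ x ∈ Icc 1 N, (W (pp m) H x / H) ^ 2 ≤ (1 / 3 + ε) * N := by
        simp only [div_pow]
        rw [← sum_div, div_le_iff₀ (by positivity)]
        linarith
      rw [h4]
      push_cast
      nlinarith

end Pool.Agent.R509.TT
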