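import Pool.Agent.R509.TT.Prog

/-!
Library R509.TT (helper509): correlations of the Liouville function of even order along pairs with
fixed gaps and averaged positions.
-/

set_option autoImplicit false

namespace Pool.Agent.R509.TT

open Finset
open Pool.Agent.Y958.U (LZ)

/-- the product of the window sums -/
lemma prod_W {r : ℕ} (h : Fin r → ℕ) (H x : ℕ) :
    ∏ i, W (pp (h i)) H x = ∑ a ∈ Fintype.piFinset (fun _ : Fin r => Icc 1 H), ∏ i, (l (x + a i) * l (x + a i + h i)) := by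
  have h1 : ∀ i, W (pp (h i)) H x = ∑ a ∈ Icc 1 H, l (x + a) * l (x + a + h i) := by
    intro i
    unfold W pp
    have h2 : Icc 1 H = Ico 1 (H + 1) := by
      ext j
      rw [mem_Icc, mem_Ico]
      omega
    rw [h2, sum_Ico_eq_sum_range]
    apply sum_congr (by simp)
    intro j _
    rw [add_assoc x 1 j]
  rw [prod_congr rfl fun i _ => h1 i, prod_univ_sum]

theorem pairs : ∃ E : Set ℕ, LZ E ∧ ∀ r : ℕ, 2 ≤ r → ∀ h : Fin r → ℕ, (∀ i, 1 ≤ h i) →
    ∀ ε : ℝ, 0 < ε → ∃ C : ℕ, ∀ H N : ℕ, C ≤ H → C * H ≤ N → N ∉ E →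
      ∑ n ∈ Icc 1 N, |∑ a ∈ Fintype.piFinset (fun _ : Fin r => Icc 1 H), ∏ i, (l (n + a i) * l (n + a i + h i))| ≤
        (1 / 3 + ε) * H ^ r * N := by
  obtain ⟨E, hE, hE2⟩ := exc
  refine ⟨E, hE, fun r hr h hh ε hε => ?_⟩
  choose! C hC using fun i => msq E hE2 (h i) (hh i) ε hε
  refine ⟨∑ i, C i + 1, fun H N hH hN hNE => ?_⟩
  have h1 : ∀ i, ∑ x ∈ Icc 1 N, W (pp (h i)) H x ^ 2 ≤ (1 / 3 + ε) * H ^ 2 * N := by
    intro i
    have h2 : C i ≤ ∑ i, C i := single_le_sum (f := C) (fun _ _ => Nat.zero_le _) (mem_univ i)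
    exact (hC i H N (by omega) (le_trans (Nat.mul_le_mul_right H (by omega)) hN) hNE).2
  -- the two chosen factors
  set i0 : Fin r := ⟨0, by omega⟩ with hi0
  set i1 : Fin r := ⟨1, by omega⟩ with hi1
  have hne : i0 ≠ i1 := by
    intro hcon
    have := Fin.ext_iff.1 hcon
    simp [hi0, hi1] at this
  have hb : ∀ i x, |W (pp (h i)) H x| ≤ H := fun i x => W_abs_le (fun n => ((pp_pm (h i)).abs n).le) H x
  have h2 : ∀ x, |∑ a ∈ Fintype.piFinset (fun _ : Fin r => Icc 1 H), ∏ i, (l (x + a i) * l (x + a i + h i))| ≤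
      (H : ℝ) ^ (r - 2) * ((W (pp (h i0)) H x ^ 2 + W (pp (h i1)) H x ^ 2) / 2) := by
    intro x
    rw [← prod_W, abs_prod, ← mul_prod_erase univ _ (mem_univ i0), ← mul_prod_erase (univ.erase i0) _ (mem_erase.2 ⟨hne.symm, mem_univ i1⟩)]
    have h3 : ∏ i ∈ (univ.erase i0).erase i1, |W (pp (h i)) H x| ≤ (H : ℝ) ^ (r - 2) := by
      refine (prod_le_prod (fun i _ => abs_nonneg _) fun i _ => hb i x).trans (le_of_eq ?_)
      rw [prod_const, card_erase_of_mem (mem_erase.2 ⟨hne.symm, mem_univ i1⟩), card_erase_of_mem (mem_univ i0), card_univ, Fintype.card_fin]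
      congr 1
    have h4 : |W (pp (h i0)) H x| * |W (pp (h i1)) H x| ≤ (W (pp (h i0)) H x ^ 2 + W (pp (h i1)) H x ^ 2) / 2 := by
      have := sq_nonneg (|W (pp (h i0)) H x| - |W (pp (h i1)) H x|)
      rw [sub_sq, sq_abs, sq_abs] at this
      linarith
    calc |W (pp (h i0)) H x| * (|W (pp (h i1)) H x| * ∏ i ∈ (univ.erase i0).erase i1, |W (pp (h i)) H x|)
        = (∏ i ∈ (univ.erase i0).erase i1, |W (pp (h i)) H x|) * (|W (pp (h i0)) H x| * |W (pp (h i1)) H x|) := by ring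
      _ ≤ _ := mul_le_mul h3 h4 (by positivity) (by positivity)
  refine (sum_le_sum fun x _ => h2 x).trans ?_
  rw [← mul_sum, ← sum_div, sum_add_distrib]
  have h3 := h1 i0
  have h4 := h1 i1
  have h5 : (∑ x ∈ Icc 1 N, W (pp (h i0)) H x ^ 2 + ∑ x ∈ Icc 1 N, W (pp (h i1)) H x ^ 2) / 2 ≤ (1 / 3 + ε) * H ^ 2 * N := by linarith
  refine (mul_le_mul_of_nonneg_left h5 (by positivity)).trans (le_of_eq ?_)
  have h6 : (H : ℝ) ^ r = H ^ (r - 2) * H ^ 2 := by rw [← pow_add]; congr 1; omega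
  rw [h6]; ring

end Pool.Agent.R509.TT
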