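import Pool.Agent.R509.TT.AllMom
import Pool.Agent.R509.TT.Pairs

/-!
Library R509.TT (helper509): the final theorems for progressions in short intervals and for pairs.
-/

set_option autoImplicit false

namespace Pool.Agent.R509.TT

open Finset
open Pool.Agent.Y958.U (LZ)

lemma pow_add_le (a u B : ℝ) (ha0 : 0 ≤ a) (hu : 0 ≤ u) (hB : a + u ≤ B) (j : ℕ) :
    (a + u) ^ j ≤ a ^ j + j * B ^ (j - 1) * u := by
  have hB0 : 0 ≤ B := by linarith
  induction j with
  | zero => simp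
  | succ j ih =>
    rcases Nat.eq_zero_or_pos j with h | h
    · subst h
      simp
    · have h1 : (a + u) ^ (j + 1) = (a + u) * (a + u) ^ j := by ring
      have h2 : (a + u) * (a + u) ^ j ≤ a * (a + u) ^ j + u * B ^ j := by
        have h3 : (a + u) ^ j ≤ B ^ j := pow_le_pow_left₀ (by linarith) hB j
        have := mul_le_mul_of_nonneg_left h3 hu
        linarith
      have h4 : a * (a + u) ^ j ≤ a * (a ^ j + j * B ^ (j - 1) * u) := mul_le_mul_of_nonneg_left ih ha0
      have h5 : a * (j * B ^ (j - 1) * u) ≤ j * B ^ j * u := by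
        have h6 : B ^ j = B * B ^ (j - 1) := by rw [← pow_succ']; congr 1; omega
        rw [h6]
        have h7 : 0 ≤ (j : ℝ) * B ^ (j - 1) * u := by positivity
        have := mul_le_mul_of_nonneg_right (show a ≤ B by linarith) h7
        linarith
      rw [h1, Nat.add_sub_cancel]
      push_cast
      have e : a ^ (j + 1) = a * a ^ j := by ring
      rw [e]
      linarith

/-- **products over progressions in short intervals, at almost all scales, all moments** -/
theorem prog2 : ∃ E : Set ℕ, LZ E ∧ ∀ k d j : ℕ, 1 ≤ d → ∀ ε : ℝ, 0 < ε → ∃ C : ℕ, ∀ H N : ℕ,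
    C ≤ H → C * H ≤ N → N ∉ E → ∑ x ∈ Icc 1 N, (Z k d H x / H) ^ j ≤ (cst j + ε) * N := by
  obtain ⟨E, hE, hE2⟩ := exc
  refine ⟨E, hE, fun k d j hd ε hε => ?_⟩
  set m : ℕ := (k + 1) * d with hm
  have hm1 : 1 ≤ m := Nat.mul_pos (by omega) hd
  set A : ℝ := j * 5 ^ (j - 1) + 1 with hA
  have hA0 : 0 < A := by positivity
  set δ : ℝ := ε / (4 * A) with hδ
  have hδ0 : 0 < δ := by positivity
  obtain ⟨C1, hC1⟩ := allmom E hE2 m hm1 j (ε / 2) (by positivity)
  obtain ⟨C2, hC2⟩ := mr δ hδ0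
  obtain ⟨C3, hC3⟩ := exists_nat_ge (3 * (m : ℝ) / δ)
  refine ⟨C1 + C2 + C3 + m + 1, fun H N hH hN hNE => ?_⟩
  have hHN : H ≤ N := le_trans (Nat.le_mul_of_pos_left H (by omega)) hN
  have h1 := hC1 H N (by omega) (le_trans (Nat.mul_le_mul_right H (by omega)) hN) hNE
  have h3 := hC2 H N (by omega) (by omega) hHN
  have hH0 : (0 : ℝ) < H := by exact_mod_cast (by omega : 0 < H)
  have hN0 : (0 : ℝ) < N := by exact_mod_cast (by omega : 0 < N)
  have hmH : (m : ℝ) ≤ H := by exact_mod_cast (by omega : m ≤ H)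
  have h4 : 3 * (m : ℝ) ≤ δ * H := by
    rw [div_le_iff₀ hδ0] at hC3
    refine hC3.trans ?_
    rw [mul_comm]
    apply mul_le_mul_of_nonneg_left _ hδ0.le
    exact_mod_cast (by omega : C3 ≤ H)
  have hZ0 : ∀ x, 0 ≤ Z k d H x := fun x => by unfold Z; positivity
  have hloc : ∀ x, (Z k d H x / H) ^ j ≤ ((1 + W (pp m) H x / H) / 2) ^ j + A * (|W l H x| / H + δ) := by
    intro x
    have h5 := local_ineq k d H x
    rw [← hm] at h5
    have e : (((k : ℝ) + 1) * d) = m := by rw [hm]; push_cast; ring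
    rw [e] at h5
    set a : ℝ := (1 + W (pp m) H x / H) / 2 with ha
    set u : ℝ := |W l H x| / H + 3 * m / H with hu
    have hr := abs_le.1 (W_abs_le (fun n => ((pp_pm m).abs n).le) H x)
    have hl : |W l H x| ≤ H := W_abs_le (fun n => (l_pm.abs n).le) H x
    have hr1 : W (pp m) H x / H ≤ 1 := by rw [div_le_one hH0]; exact hr.2
    have hr2 : -1 ≤ W (pp m) H x / H := by rw [le_div_iff₀ hH0]; linarith
    have ha0 : 0 ≤ a := by rw [ha]; linarith
    have ha1 : a ≤ 1 := by rw [ha]; linarith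
    have hu0 : 0 ≤ u := by positivity
    have hu1 : |W l H x| / H ≤ 1 := by rw [div_le_one hH0]; exact hl
    have hu2 : 3 * (m : ℝ) / H ≤ 3 := by rw [div_le_iff₀ hH0]; linarith
    have hu3 : 3 * (m : ℝ) / H ≤ δ := by rw [div_le_iff₀ hH0]; exact h4
    have h6 : Z k d H x / H ≤ a + u := by
      rw [div_le_iff₀ hH0]
      have e2 : (a + u) * H = (H + W (pp m) H x) / 2 + |W l H x| + 3 * m := by
        rw [ha, hu]; field_simp; ring
      rw [e2]
      unfold Z
      linarith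
    have h7 := pow_le_pow_left₀ (div_nonneg (hZ0 x) hH0.le) h6 j
    have h8 := pow_add_le a u 5 ha0 hu0 (by linarith) j
    refine h7.trans (h8.trans ?_)
    have h9 : (j : ℝ) * 5 ^ (j - 1) * u ≤ A * u := by
      apply mul_le_mul_of_nonneg_right _ hu0
      rw [hA]; linarith
    have h10 : A * u ≤ A * (|W l H x| / H + δ) := by
      apply mul_le_mul_of_nonneg_left _ hA0.le
      rw [hu]; linarith
    linarith
  refine (sum_le_sum fun x _ => hloc x).trans ?_
  rw [sum_add_distrib, ← mul_sum, sum_add_distrib, ← sum_div]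
  have h5 : (∑ x ∈ Icc 1 N, |W l H x|) / H ≤ δ * N := by
    rw [div_le_iff₀ hH0]
    linarith
  have h6 : ∑ x ∈ Icc 1 N, δ = δ * N := by
    rw [sum_const, Nat.card_Icc, Nat.add_sub_cancel, nsmul_eq_mul]; ring
  rw [h6]
  have h7 : A * ((∑ x ∈ Icc 1 N, |W l H x|) / H + δ * N) ≤ A * (2 * δ * N) := by
    apply mul_le_mul_of_nonneg_left _ hA0.le
    linarith
  have h8 : A * (2 * δ * N) = ε / 2 * N := by rw [hδ]; field_simp; ring
  linarith

/-- the moments of the local means of `λ(n) λ(n + h)` -/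
theorem mom_pp (E : Set ℕ) (hE : Exc E) (h : ℕ) (hh : 1 ≤ h) (r : ℕ) (ε : ℝ) (hε : 0 < ε) :
    ∃ C : ℕ, ∀ H N : ℕ, C ≤ H → C * H ≤ N → N ∉ E →
      ∑ x ∈ Icc 1 N, |W (pp h) H x| ^ r ≤ (cst r + ε) * H ^ r * N := by
  set A : ℝ := r * 2 ^ (r - 1) + 1 with hA
  have hA0 : 0 < A := by positivity
  obtain ⟨C1, hC1⟩ := allmom E hE (2 * h) (by omega) r (ε / 2) (by positivity)
  obtain ⟨C3, hC3⟩ := exists_nat_ge (2 * A * h / ε)
  refine ⟨C1 + C3 + h + 1, fun H N hH hN hNE => ?_⟩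
  have h1 := hC1 H N (by omega) (le_trans (Nat.mul_le_mul_right H (by omega)) hN) hNE
  have hH0 : (0 : ℝ) < H := by exact_mod_cast (by omega : 0 < H)
  have hhH : (h : ℝ) ≤ H := by exact_mod_cast (by omega : h ≤ H)
  have h4 : A * (h / H) ≤ ε / 2 := by
    rw [div_le_iff₀ hε] at hC3
    have h5 : (C3 : ℝ) ≤ H := by exact_mod_cast (by omega : C3 ≤ H)
    have h6 := mul_le_mul_of_nonneg_right h5 hε.le
    rw [← mul_div_assoc, div_le_iff₀ hH0]
    linarith
  have hloc : ∀ x, |W (pp h) H x| ^ r ≤ H ^ r * (((1 + W (pp (2 * h)) H x / H) / 2) ^ r + A * (h / H)) := by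
    intro x
    have h5 := tent (pp_pm h) h H x
    have h6 : (fun n => pp h n * pp h (n + h)) = pp (2 * h) := by funext n; exact pp_pp h n
    rw [h6] at h5
    set a : ℝ := (1 + W (pp (2 * h)) H x / H) / 2 with ha
    have hr := abs_le.1 (W_abs_le (fun n => ((pp_pm (2 * h)).abs n).le) H x)
    have hr1 : W (pp (2 * h)) H x / H ≤ 1 := by rw [div_le_one hH0]; exact hr.2
    have hr2 : -1 ≤ W (pp (2 * h)) H x / H := by rw [le_div_iff₀ hH0]; linarith
    have ha0 : 0 ≤ a := by rw [ha]; linarith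
    have ha1 : a ≤ 1 := by rw [ha]; linarith
    have hu0 : (0 : ℝ) ≤ h / H := by positivity
    have hu1 : (h : ℝ) / H ≤ 1 := by rw [div_le_one hH0]; exact hhH
    have h7 : |W (pp h) H x| ≤ H * (a + h / H) := by
      have e2 : (H : ℝ) * (a + h / H) = (H + W (pp (2 * h)) H x) / 2 + h := by
        rw [ha]; field_simp
      rw [e2]
      linarith
    have h8 := pow_le_pow_left₀ (abs_nonneg _) h7 r
    have h9 := pow_add_le a (h / H) 2 ha0 hu0 (by linarith) r
    rw [mul_pow] at h8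
    refine h8.trans ?_
    apply mul_le_mul_of_nonneg_left _ (by positivity)
    refine h9.trans ?_
    have h10 : (r : ℝ) * 2 ^ (r - 1) * (h / H) ≤ A * (h / H) := by
      apply mul_le_mul_of_nonneg_right _ hu0
      rw [hA]; linarith
    linarith
  refine (sum_le_sum fun x _ => hloc x).trans ?_
  rw [← mul_sum, sum_add_distrib, sum_const, Nat.card_Icc, Nat.add_sub_cancel, nsmul_eq_mul]
  have hN0 : (0 : ℝ) ≤ N := Nat.cast_nonneg N
  have h5 := mul_le_mul_of_nonneg_left h4 hN0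
  have h6 : ∑ x ∈ Icc 1 N, ((1 + W (pp (2 * h)) H x / H) / 2) ^ r + N * (A * (h / H)) ≤ (cst r + ε) * N := by linarith
  refine (mul_le_mul_of_nonneg_left h6 (by positivity)).trans (le_of_eq ?_)
  ring

/-- **even order correlations along pairs with fixed gaps** -/
theorem pairs2 : ∃ E : Set ℕ, LZ E ∧ ∀ (r : ℕ) (h : Fin r → ℕ), (∀ i, 1 ≤ h i) →
    ∀ ε : ℝ, 0 < ε → ∃ C : ℕ, ∀ H N : ℕ, C ≤ H → C * H ≤ N → N ∉ E →
      ∑ n ∈ Icc 1 N, |∑ a ∈ Fintype.piFinset (fun _ : Fin r => Icc 1 H), ∏ i, (l (n + a i) * l (n + a i + h i))| ≤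
        (cst r + ε) * H ^ r * N := by
  obtain ⟨E, hE, hE2⟩ := exc
  refine ⟨E, hE, fun r h hh ε hε => ?_⟩
  choose! C hC using fun i => mom_pp E hE2 (h i) (hh i) r ε hε
  refine ⟨∑ i, C i + 1, fun H N hH hN hNE => ?_⟩
  have h1 : ∀ i, ∑ x ∈ Icc 1 N, |W (pp (h i)) H x| ^ r ≤ (cst r + ε) * H ^ r * N := by
    intro i
    have h2 : C i ≤ ∑ i, C i := single_le_sum (f := C) (fun _ _ => Nat.zero_le _) (mem_univ i)
    exact hC i H N (by omega) (le_trans (Nat.mul_le_mul_right H (by omega)) hN) hNE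
  rcases Nat.eq_zero_or_pos r with hr | hr
  · subst hr
    simp only [cst, Nat.cast_zero, zero_add, pow_zero, mul_one]
    simp
    nlinarith [Nat.cast_nonneg (α := ℝ) N]
  have hr0 : (0 : ℝ) < r := by exact_mod_cast hr
  have h2 : ∀ x, |∑ a ∈ Fintype.piFinset (fun _ : Fin r => Icc 1 H), ∏ i, (l (x + a i) * l (x + a i + h i))| ≤
      ∑ i, (1 / r : ℝ) * |W (pp (h i)) H x| ^ r := by
    intro x
    rw [← prod_W, abs_prod]
    have h4 := Real.geom_mean_le_arith_mean_weighted univ (fun _ : Fin r => (1 / r : ℝ)) (fun i => |W (pp (h i)) H x| ^ r)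
      (fun _ _ => by positivity) (by simp [hr0.ne']) (fun _ _ => by positivity)
    refine le_trans (le_of_eq ?_) h4
    apply prod_congr rfl
    intro i _
    rw [← Real.rpow_natCast, ← Real.rpow_mul (abs_nonneg _), mul_one_div, div_self hr0.ne', Real.rpow_one]
  refine (sum_le_sum fun x _ => h2 x).trans ?_
  rw [sum_comm]
  have h3 : ∀ i ∈ (univ : Finset (Fin r)), ∑ x ∈ Icc 1 N, (1 / r : ℝ) * |W (pp (h i)) H x| ^ r ≤ (1 / r) * ((cst r + ε) * H ^ r * N) := by
    intro i _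
    rw [← mul_sum]
    exact mul_le_mul_of_nonneg_left (h1 i) (by positivity)
  refine (sum_le_sum h3).trans (le_of_eq ?_)
  rw [sum_const, card_univ, Fintype.card_fin, nsmul_eq_mul]
  field_simp

end Pool.Agent.R509.TT
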