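import Pool.Agent.R509.TT.Prog

/-!
Library R509.TT (helper509): all the moments of the local means of `(1 + λ(n) λ(n + m)) / 2`.
-/

set_option autoImplicit false

namespace Pool.Agent.R509.TT

open Finset
open Pool.Agent.Y958.U (LZ)

/-- the square of the sum over a progression of length `J` -/
noncomputable def aJ (J m n : ℕ) : ℝ := (∑ i ∈ range J, l (n + i * m)) ^ 2

/-- `1 - λ(n) λ(n + m)` -/
noncomputable def qq (m n : ℕ) : ℝ := 1 - pp m n

lemma qq_nonneg (m n : ℕ) : 0 ≤ qq m n := by
  unfold qq; rcases pp_pm m n with h | h <;> rw [h] <;> norm_num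

lemma qq_le (m n : ℕ) : qq m n ≤ 2 := by
  unfold qq; rcases pp_pm m n with h | h <;> rw [h] <;> norm_num

/-- the triangle inequality for signs -/
lemma tri (m n i d : ℕ) : 1 - l (n + i * m) * l (n + (i + d) * m) ≤ ∑ s ∈ range d, qq m (n + (i + s) * m) := by
  induction d with
  | zero => simp [l_pm.sq]
  | succ d ih =>
    rw [sum_range_succ]
    have h1 : qq m (n + (i + d) * m) = 1 - l (n + (i + d) * m) * l (n + (i + (d + 1)) * m) := by
      unfold qq pp
      congr 3
      ring
    rw [h1]
    rcases l_pm (n + i * m) with h | h <;> rcases l_pm (n + (i + d) * m) with h' | h' <;>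
      rcases l_pm (n + (i + (d + 1)) * m) with h'' | h'' <;> rw [h, h'] at ih <;> rw [h, h', h''] <;> linarith

/-- the same for the sums over windows -/
lemma tri_W (m i d H x : ℕ) : H - W (fun n => l (n + i * m) * l (n + (i + d) * m)) H x ≤
    d * (W (qq m) H x + 4 * ((i + d : ℕ) * m)) := by
  have h1 : W (fun n => 1 - l (n + i * m) * l (n + (i + d) * m)) H x ≤
      W (fun n => ∑ s ∈ range d, qq m (n + (i + s) * m)) H x := W_mono (fun n => tri m n i d) H x
  have h2 : W (fun n => 1 - l (n + i * m) * l (n + (i + d) * m)) H x = H - W (fun n => l (n + i * m) * l (n + (i + d) * m)) H x := by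
    unfold W
    rw [sum_sub_distrib]
    simp
  have h3 : W (fun n => ∑ s ∈ range d, qq m (n + (i + s) * m)) H x = ∑ s ∈ range d, W (fun n => qq m (n + (i + s) * m)) H x := by
    unfold W
    rw [sum_comm]
  rw [h2, h3] at h1
  refine h1.trans ?_
  have h4 : ∀ s ∈ range d, W (fun n => qq m (n + (i + s) * m)) H x ≤ W (qq m) H x + 4 * ((i + d : ℕ) * m) := by
    intro s hs
    rw [mem_range] at hs
    have h5 := W_shift (g := fun n => qq m n / 2) (fun n => by
      rw [abs_of_nonneg (by have := qq_nonneg m n; positivity)]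
      have := qq_le m n
      linarith) ((i + s) * m) H x
    have h6 : W (fun n => qq m (n + (i + s) * m) / 2) H x = W (fun n => qq m (n + (i + s) * m)) H x / 2 := by
      unfold W; rw [sum_div]
    have h7 : W (fun n => qq m n / 2) H x = W (qq m) H x / 2 := by
      unfold W; rw [sum_div]
    rw [h6, h7] at h5
    have h8 := (abs_le.1 h5).2
    have h9 : (((i + s) * m : ℕ) : ℝ) ≤ ((i + d : ℕ) : ℝ) * m := by
      rw [Nat.cast_mul]
      apply mul_le_mul_of_nonneg_right _ (Nat.cast_nonneg m)
      exact_mod_cast (by omega : i + s ≤ i + d)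
    linarith
  refine (sum_le_sum h4).trans (le_of_eq ?_)
  rw [sum_const, card_range, nsmul_eq_mul]

lemma sum_dist (J : ℕ) : ∑ i ∈ range J, ∑ j ∈ range J, |(i : ℝ) - j| = ((J : ℝ) ^ 3 - J) / 3 := by
  induction J with
  | zero => simp
  | succ J ih =>
    have h1 : ∑ i ∈ range J, |((i : ℕ) : ℝ) - J| = J * (J + 1) / 2 := by
      have h2 : ∀ i ∈ range J, |((i : ℕ) : ℝ) - J| = J - i := by
        intro i hi
        rw [mem_range] at hi
        have : (i : ℝ) < J := by exact_mod_cast hi
        rw [abs_of_neg (by linarith)]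
        ring
      rw [sum_congr rfl h2]
      clear h2 ih
      induction J with
      | zero => simp
      | succ J ih =>
        rw [sum_range_succ]
        have h3 : ∑ i ∈ range J, (((J + 1 : ℕ) : ℝ) - i) = ∑ i ∈ range J, ((J : ℝ) - i) + J := by
          rw [show (J : ℝ) = ∑ i ∈ range J, (1 : ℝ) by simp, ← sum_add_distrib]
          apply sum_congr rfl
          intro i _
          push_cast
          simp
          ring
        rw [h3, ih]
        push_cast
        ring
    rw [sum_range_succ]
    simp only [sum_range_succ, sum_add_distrib]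
    rw [ih, h1]
    have h2 : ∑ j ∈ range J, |(J : ℝ) - j| = J * (J + 1) / 2 := by
      rw [← h1]
      apply sum_congr rfl
      intro i _
      exact abs_sub_comm _ _
    rw [h2]
    push_cast
    simp
    ring

/-- the lower bound in one window -/
lemma aJ_lower (J m H x : ℕ) :
    (J : ℝ) ^ 2 * H - W (aJ J m) H x ≤ ((J : ℝ) ^ 3 - J) / 3 * (W (qq m) H x + 8 * (J * m)) := by
  have h0 : ∀ i ∈ range J, ∀ j ∈ range J, H - W (fun n => l (n + i * m) * l (n + j * m)) H x ≤
      |(i : ℝ) - j| * (W (qq m) H x + 8 * (J * m)) := by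
    intro i hi j hj
    rw [mem_range] at hi hj
    have hq : 0 ≤ W (qq m) H x := by unfold W; exact sum_nonneg fun _ _ => qq_nonneg _ _
    have hm0 : (0 : ℝ) ≤ m := Nat.cast_nonneg m
    have hJ0 : (0 : ℝ) ≤ J := Nat.cast_nonneg J
    rcases le_total i j with h | h
    · obtain ⟨d, rfl⟩ := Nat.exists_eq_add_of_le h
      refine (tri_W m i d H x).trans ?_
      have h1 : |(i : ℝ) - (i + d : ℕ)| = d := by
        push_cast
        rw [show (i : ℝ) - (i + d) = -d by ring, abs_neg, Nat.abs_cast]
      rw [h1]
      apply mul_le_mul_of_nonneg_left _ (Nat.cast_nonneg d)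
      have h2 : ((i + d : ℕ) : ℝ) ≤ J := by exact_mod_cast hj.le
      nlinarith
    · obtain ⟨d, rfl⟩ := Nat.exists_eq_add_of_le h
      have h3 : (fun n => l (n + (j + d) * m) * l (n + j * m)) = fun n => l (n + j * m) * l (n + (j + d) * m) := by
        funext n; ring
      rw [h3]
      refine (tri_W m j d H x).trans ?_
      have h1 : |((j + d : ℕ) : ℝ) - j| = d := by
        push_cast
        rw [show (j : ℝ) + d - j = d by ring, Nat.abs_cast]
      rw [h1]
      apply mul_le_mul_of_nonneg_left _ (Nat.cast_nonneg d)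
      have h2 : ((j + d : ℕ) : ℝ) ≤ J := by exact_mod_cast hi.le
      nlinarith
  have h1 := sum_le_sum fun i hi => sum_le_sum fun j hj => h0 i hi j hj
  have h2 : ∑ i ∈ range J, ∑ j ∈ range J, ((H : ℝ) - W (fun n => l (n + i * m) * l (n + j * m)) H x) =
      (J : ℝ) ^ 2 * H - W (aJ J m) H x := by
    simp only [sum_sub_distrib, sum_const, card_range, nsmul_eq_mul]
    congr 1
    · ring
    · unfold W aJ
      simp only [sq, sum_mul_sum]
      rw [sum_comm' (t' := range J) (s' := fun _ => range J) (by simp)]
      rw [sum_congr rfl fun j (_ : j ∈ range J) => sum_comm]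
      rw [sum_comm]
      apply sum_congr rfl
      intro i _
      rw [sum_comm]
  rw [h2] at h1
  refine h1.trans (le_of_eq ?_)
  rw [← sum_dist]
  simp only [sum_mul]

end Pool.Agent.R509.TT
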