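import Mathlib

/-!
Library R509.TT (helper509): local averages of sequences of signs, and the inequality
`2 |mean of g| ≤ 1 + mean of g(n) g(n + d)` in every window.
-/

set_option autoImplicit false

namespace Pool.Agent.R509.TT

open Finset

/-- the sum over the window `(x, x + H]` -/
noncomputable def W (g : ℕ → ℝ) (H x : ℕ) : ℝ := ∑ i ∈ range H, g (x + 1 + i)

/-- sequences of signs -/
def Pm (g : ℕ → ℝ) : Prop := ∀ n, g n = 1 ∨ g n = -1

lemma Pm.sq {g : ℕ → ℝ} (hg : Pm g) (n : ℕ) : g n * g n = 1 := by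
  rcases hg n with h | h <;> rw [h] <;> norm_num

lemma Pm.abs {g : ℕ → ℝ} (hg : Pm g) (n : ℕ) : |g n| = 1 := by
  rcases hg n with h | h <;> rw [h] <;> norm_num

lemma Pm.mul {g h : ℕ → ℝ} (hg : Pm g) (hh : Pm h) : Pm (fun n => g n * h n) := by
  intro n
  rcases hg n with h1 | h1 <;> rcases hh n with h2 | h2 <;> simp [h1, h2]

lemma Pm.shift {g : ℕ → ℝ} (hg : Pm g) (d : ℕ) : Pm (fun n => g (n + d)) := fun n => hg (n + d)

lemma W_add (g h : ℕ → ℝ) (H x : ℕ) : W (fun n => g n + h n) H x = W g H x + W h H x := by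
  unfold W; rw [sum_add_distrib]

lemma W_smul (c : ℝ) (g : ℕ → ℝ) (H x : ℕ) : W (fun n => c * g n) H x = c * W g H x := by
  unfold W; rw [mul_sum]

lemma W_one (H x : ℕ) : W (fun _ => 1) H x = H := by
  unfold W; simp

lemma W_mono {g h : ℕ → ℝ} (hgh : ∀ n, g n ≤ h n) (H x : ℕ) : W g H x ≤ W h H x := by
  unfold W; exact sum_le_sum fun i _ => hgh _

lemma W_abs_le {g : ℕ → ℝ} (hg : ∀ n, |g n| ≤ 1) (H x : ℕ) : |W g H x| ≤ H := by
  unfold W
  refine (abs_sum_le_sum_abs _ _).trans ((sum_le_sum fun i _ => hg _).trans (le_of_eq ?_))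
  simp

lemma W_abs (g : ℕ → ℝ) (H x : ℕ) : |W g H x| ≤ W (fun n => |g n|) H x := by
  unfold W
  exact abs_sum_le_sum_abs _ _

/-- shifting the sequence -/
lemma W_shift {g : ℕ → ℝ} (hg : ∀ n, |g n| ≤ 1) (d H x : ℕ) :
    |W (fun n => g (n + d)) H x - W g H x| ≤ 2 * d := by
  have h1 : ∑ i ∈ range (H + d), g (x + 1 + i) = W g H x + ∑ i ∈ range d, g (x + 1 + (H + i)) := by
    rw [sum_range_add]
    rfl
  have h2 : ∑ i ∈ range (H + d), g (x + 1 + i) = ∑ i ∈ range d, g (x + 1 + i) + W (fun n => g (n + d)) H x := by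
    rw [add_comm H d, sum_range_add]
    congr 1
    unfold W
    apply sum_congr rfl
    intro i _
    simp only
    congr 1
    omega
  have h3 : W (fun n => g (n + d)) H x - W g H x =
      ∑ i ∈ range d, g (x + 1 + (H + i)) - ∑ i ∈ range d, g (x + 1 + i) := by linarith
  rw [h3]
  have h4 : |∑ i ∈ range d, g (x + 1 + (H + i))| ≤ d := by
    refine (abs_sum_le_sum_abs _ _).trans ((sum_le_sum fun i _ => hg _).trans (le_of_eq ?_))
    simp
  have h5 : |∑ i ∈ range d, g (x + 1 + i)| ≤ d := by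
    refine (abs_sum_le_sum_abs _ _).trans ((sum_le_sum fun i _ => hg _).trans (le_of_eq ?_))
    simp
  have := abs_sub (∑ i ∈ range d, g (x + 1 + (H + i))) (∑ i ∈ range d, g (x + 1 + i))
  linarith

/-- the basic inequality -/
lemma tent {g : ℕ → ℝ} (hg : Pm g) (d H x : ℕ) :
    2 * |W g H x| ≤ H + W (fun n => g n * g (n + d)) H x + 2 * d := by
  have h1 := W_shift (fun n => (hg.abs n).le) d H x
  have h2 : |W g H x + W (fun n => g (n + d)) H x| ≤ H + W (fun n => g n * g (n + d)) H x := by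
    rw [← W_add]
    refine (W_abs _ _ _).trans ?_
    rw [← W_one H x, ← W_add]
    apply W_mono
    intro n
    rcases hg n with h | h <;> rcases hg (n + d) with h' | h' <;> simp only [h, h'] <;> norm_num
  have h3 : 2 * W g H x = (W g H x + W (fun n => g (n + d)) H x) - (W (fun n => g (n + d)) H x - W g H x) := by ring
  have h4 : 2 * |W g H x| = |2 * W g H x| := by rw [abs_mul, abs_two]
  rw [h4, h3]
  refine (abs_sub _ _).trans ?_
  linarith

lemma tent_sq {g : ℕ → ℝ} (hg : Pm g) (d H x : ℕ) (hd : d ≤ H) :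
    4 * W g H x ^ 2 ≤ (H : ℝ) ^ 2 + 2 * H * W (fun n => g n * g (n + d)) H x +
      W (fun n => g n * g (n + d)) H x ^ 2 + 12 * d * H := by
  have h1 := tent hg d H x
  set r := W (fun n => g n * g (n + d)) H x
  have hr : |r| ≤ H := W_abs_le (fun n => ((hg.mul (hg.shift d)).abs n).le) H x
  have hdr : (d : ℝ) ≤ H := by exact_mod_cast hd
  have hd0 : (0 : ℝ) ≤ d := Nat.cast_nonneg d
  have h2 : 4 * W g H x ^ 2 = (2 * |W g H x|) ^ 2 := by rw [mul_pow, sq_abs]; norm_num
  have h3 : (2 * |W g H x|) ^ 2 ≤ (H + r + 2 * d) ^ 2 := by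
    apply pow_le_pow_left₀ (by positivity) h1
  have h4 := abs_le.1 hr
  nlinarith

/-- the mean square over the windows -/
lemma tent_sum {g : ℕ → ℝ} (hg : Pm g) (d H N : ℕ) (hd : d ≤ H) :
    4 * ∑ x ∈ Icc 1 N, W g H x ^ 2 ≤ (H : ℝ) ^ 2 * N +
      2 * H * ∑ x ∈ Icc 1 N, W (fun n => g n * g (n + d)) H x +
      ∑ x ∈ Icc 1 N, W (fun n => g n * g (n + d)) H x ^ 2 + 12 * d * H * N := by
  have h1 := sum_le_sum fun x (_ : x ∈ Icc 1 N) => tent_sq hg d H x hd
  rw [← mul_sum] at h1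
  refine h1.trans (le_of_eq ?_)
  simp only [sum_add_distrib, mul_sum, sum_const, Nat.card_Icc, nsmul_eq_mul, Nat.add_sub_cancel]
  ring

/-- summing over the windows -/
lemma W_sum {g : ℕ → ℝ} (hg : ∀ n, |g n| ≤ 1) (H N : ℕ) :
    |∑ x ∈ Icc 1 N, W g H x| ≤ H * (|∑ n ∈ range N, g n| + 2 * (H + 1)) := by
  unfold W
  rw [sum_comm]
  refine (abs_sum_le_sum_abs _ _).trans ?_
  have h1 : ∀ i ∈ range H, |∑ x ∈ Icc 1 N, g (x + 1 + i)| ≤ |∑ n ∈ range N, g n| + 2 * (H + 1) := by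
    intro i hi
    rw [mem_range] at hi
    have h2 : ∑ x ∈ Icc 1 N, g (x + 1 + i) = ∑ n ∈ range N, g (n + (i + 2)) := by
      rw [range_eq_Ico, sum_Ico_add' g 0 N (i + 2)]
      have h3 : Icc 1 N = Ico 1 (N + 1) := by
        ext j
        rw [mem_Icc, mem_Ico]
        omega
      rw [h3]
      have h4 := sum_Ico_add' g 1 (N + 1) (1 + i)
      rw [show 0 + (i + 2) = 1 + (1 + i) by omega, show N + (i + 2) = N + 1 + (1 + i) by omega, ← h4]
      apply sum_congr rfl
      intro x _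
      congr 1
      ring
    rw [h2]
    have h5 : ∑ n ∈ range (N + (i + 2)), g n = ∑ n ∈ range N, g n + ∑ n ∈ range (i + 2), g (N + n) := sum_range_add _ _ _
    have h6 : ∑ n ∈ range (N + (i + 2)), g n = ∑ n ∈ range (i + 2), g n + ∑ n ∈ range N, g (i + 2 + n) := by
      rw [add_comm N (i + 2)]; exact sum_range_add _ _ _
    have h7 : ∑ n ∈ range N, g (n + (i + 2)) = ∑ n ∈ range N, g n + ∑ n ∈ range (i + 2), g (N + n) - ∑ n ∈ range (i + 2), g n := by
      rw [← h5, h6]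
      have : ∑ n ∈ range N, g (n + (i + 2)) = ∑ n ∈ range N, g (i + 2 + n) :=
        sum_congr rfl fun n _ => by rw [add_comm]
      rw [this]; ring
    have hb : ∀ φ : ℕ → ℕ, |∑ n ∈ range (i + 2), g (φ n)| ≤ H + 1 := by
      intro φ
      refine (abs_sum_le_sum_abs _ _).trans ((sum_le_sum fun i _ => hg _).trans ?_)
      simp only [sum_const, card_range, nsmul_eq_mul, mul_one]
      have : (i : ℝ) + 1 ≤ H := by exact_mod_cast hi
      push_cast; linarith
    rw [h7]
    have h8 : |∑ n ∈ range (i + 2), g (N + n)| ≤ H + 1 := hb (fun n => N + n)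
    have h9 : |∑ n ∈ range (i + 2), g n| ≤ H + 1 := hb (fun n => n)
    rw [abs_le] at *
    have h10 := neg_abs_le (∑ n ∈ range N, g n)
    have h11 := le_abs_self (∑ n ∈ range N, g n)
    constructor <;> linarith
  refine (sum_le_sum h1).trans (le_of_eq ?_)
  rw [sum_const, card_range, nsmul_eq_mul]

end Pool.Agent.R509.TT
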