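import Pool.Agent.R509.TT.Two

/-!
Library R509.TT (helper509): products of the Liouville function over progressions with fixed length
and difference, in short intervals.
-/

set_option autoImplicit false

namespace Pool.Agent.R509.TT

open Finset
open Pool.Agent.Y958.U (LZ)

/-- the product over the progression `n, n + d, ..., n + (k - 1) d` -/
noncomputable def pr (k d n : ℕ) : ℝ := ∏ i ∈ range k, l (n + i * d)

lemma pr_pm (k d : ℕ) : Pm (pr k d) := by
  intro n
  unfold pr
  induction k with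
  | zero => simp
  | succ k ih =>
    rw [prod_range_succ]
    rcases ih with h | h <;> rcases l_pm (n + k * d) with h' | h' <;> simp [h, h']

lemma pr_last (k d n : ℕ) : pr (k + 1) d n = pr k d n * l (n + k * d) := by
  unfold pr; rw [prod_range_succ]

lemma pr_first (k d n : ℕ) : pr (k + 1) d n = l n * pr k d (n + d) := by
  unfold pr
  rw [prod_range_succ', mul_comm]
  congr 1
  · congr 1; ring
  · apply prod_congr rfl
    intro i _
    congr 1; ring

lemma pr_shift (k d n : ℕ) : pr (k + 1) d (n + d) = pr (k + 1) d n * (l n * l (n + (k + 1) * d)) := by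
  have h1 : pr k d (n + d) = pr (k + 1) d n * l n := by
    rw [pr_first]
    calc pr k d (n + d) = pr k d (n + d) * (l n * l n) := by rw [l_pm.sq, mul_one]
      _ = _ := by ring
  rw [pr_last, h1]
  have : n + d + k * d = n + (k + 1) * d := by ring
  rw [this]; ring

/-- the inequality in one window -/
lemma local_ineq (k d H x : ℕ) :
    2 * |W (pr (k + 1) d) H x| + |W (pr k d) H x + W (pr (k + 2) d) H x| ≤
      H + W (pp ((k + 1) * d)) H x + 2 * |W l H x| + 6 * ((k + 1) * d) := by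
  set A : ℝ := W (fun n => pr (k + 1) d n + pr (k + 1) d (n + d)) H x with hA
  set B : ℝ := W (fun n => pr (k + 2) d n + pr k d (n + d)) H x with hB
  have hb : ∀ j : ℕ, ∀ n, |pr j d n| ≤ 1 := fun j n => ((pr_pm j d).abs n).le
  have hA1 : |2 * W (pr (k + 1) d) H x| ≤ |A| + 2 * d := by
    have h1 := W_shift (hb (k + 1)) d H x
    have h2 : A = W (pr (k + 1) d) H x + W (fun n => pr (k + 1) d (n + d)) H x := by rw [hA, W_add]
    have h3 : 2 * W (pr (k + 1) d) H x = A - (W (fun n => pr (k + 1) d (n + d)) H x - W (pr (k + 1) d) H x) := by rw [h2]; ring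
    rw [h3]
    have := abs_sub A (W (fun n => pr (k + 1) d (n + d)) H x - W (pr (k + 1) d) H x)
    linarith
  have hB1 : |W (pr k d) H x + W (pr (k + 2) d) H x| ≤ |B| + 2 * d := by
    have h1 := W_shift (hb k) d H x
    have h2 : B = W (pr (k + 2) d) H x + W (fun n => pr k d (n + d)) H x := by rw [hB, W_add]
    have h3 : W (pr k d) H x + W (pr (k + 2) d) H x = B - (W (fun n => pr k d (n + d)) H x - W (pr k d) H x) := by rw [h2]; ring
    rw [h3]
    have := abs_sub B (W (fun n => pr k d (n + d)) H x - W (pr k d) H x)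
    linarith
  have key : ∀ σ τ : ℝ, (σ = 1 ∨ σ = -1) → (τ = 1 ∨ τ = -1) →
      σ * A + τ * B ≤ H + W (pp ((k + 1) * d)) H x + 2 * |W l H x| + 2 * ((k + 1) * d) := by
    intro σ τ hσ hτ
    have h1 : σ * A + τ * B ≤ W (fun n => 1 + (σ * τ) * l n + (σ * τ) * l (n + (k + 1) * d) + pp ((k + 1) * d) n) H x := by
      rw [hA, hB, ← W_smul, ← W_smul, ← W_add]
      apply W_mono
      intro n
      have e1 := pr_shift k d n
      have e2 := pr_last (k + 1) d n
      have e3 : pr k d (n + d) = pr (k + 1) d n * l n := by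
        rw [pr_first]
        calc pr k d (n + d) = pr k d (n + d) * (l n * l n) := by rw [l_pm.sq, mul_one]
          _ = _ := by ring
      rw [e1, e3]
      change σ * _ + τ * (pr (k + 1 + 1) d n + _) ≤ _
      rw [e2]
      unfold pp
      rcases pr_pm (k + 1) d n with h | h <;> rcases l_pm n with h' | h' <;>
        rcases l_pm (n + (k + 1) * d) with h'' | h'' <;> rcases hσ with h3 | h3 <;> rcases hτ with h4 | h4 <;>
        rw [h, h', h'', h3, h4] <;> norm_num
    refine h1.trans ?_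
    have hl : ∀ n, |l n| ≤ 1 := fun n => (l_pm.abs n).le
    have h2 := W_shift hl ((k + 1) * d) H x
    have h3 : W (fun n => 1 + (σ * τ) * l n + (σ * τ) * l (n + (k + 1) * d) + pp ((k + 1) * d) n) H x =
        H + (σ * τ) * W l H x + (σ * τ) * W (fun n => l (n + (k + 1) * d)) H x + W (pp ((k + 1) * d)) H x := by
      unfold W
      simp only [sum_add_distrib, mul_sum, sum_const, card_range, nsmul_eq_mul, mul_one]
    rw [h3]
    have h4 : |σ * τ| = 1 := by
      rcases hσ with h | h <;> rcases hτ with h' | h' <;> rw [h, h'] <;> norm_num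
    have h5 : (σ * τ) * W l H x ≤ |W l H x| := by
      refine (le_abs_self _).trans ?_
      rw [abs_mul, h4, one_mul]
    have h6 : (σ * τ) * W (fun n => l (n + (k + 1) * d)) H x ≤ |W l H x| + 2 * ((k + 1) * d) := by
      refine (le_abs_self _).trans ?_
      rw [abs_mul, h4, one_mul]
      have := abs_sub_abs_le_abs_sub (W (fun n => l (n + (k + 1) * d)) H x) (W l H x)
      push_cast at h2
      linarith
    linarith
  have h1 : |A| + |B| ≤ H + W (pp ((k + 1) * d)) H x + 2 * |W l H x| + 2 * ((k + 1) * d) := by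
    rcases abs_cases A with ⟨ha, _⟩ | ⟨ha, _⟩ <;> rcases abs_cases B with ⟨hb, _⟩ | ⟨hb, _⟩ <;> rw [ha, hb]
    · have := key 1 1 (Or.inl rfl) (Or.inl rfl); linarith
    · have := key 1 (-1) (Or.inl rfl) (Or.inr rfl); linarith
    · have := key (-1) 1 (Or.inr rfl) (Or.inl rfl); linarith
    · have := key (-1) (-1) (Or.inr rfl) (Or.inr rfl); linarith
  have h2 : 2 * |W (pr (k + 1) d) H x| = |2 * W (pr (k + 1) d) H x| := by rw [abs_mul, abs_two]
  rw [h2]
  have hk : (0 : ℝ) ≤ k * d := by positivity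
  nlinarith

/-- the quantity in one window -/
noncomputable def Z (k d H x : ℕ) : ℝ :=
  |W (pr (k + 1) d) H x| + |W (pr k d) H x + W (pr (k + 2) d) H x| / 2

/-- **products over progressions in short intervals, at almost all scales** -/
theorem prog : ∃ E : Set ℕ, LZ E ∧ ∀ k d : ℕ, 1 ≤ d → ∀ ε : ℝ, 0 < ε → ∃ C : ℕ, ∀ H N : ℕ,
    C ≤ H → C * H ≤ N → N ∉ E →
      ∑ x ∈ Icc 1 N, Z k d H x / H ≤ (1 / 2 + ε) * N ∧ ∑ x ∈ Icc 1 N, (Z k d H x / H) ^ 2 ≤ (1 / 3 + ε) * N := by
  obtain ⟨E, hE, hE2⟩ := exc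
  refine ⟨E, hE, fun k d hd ε hε => ?_⟩
  set m : ℕ := (k + 1) * d with hm
  have hm1 : 1 ≤ m := Nat.mul_pos (by omega) hd
  set δ : ℝ := min 1 (ε / 20) with hδ
  have hδ0 : 0 < δ := lt_min one_pos (by positivity)
  have hδ1 : δ ≤ 1 := min_le_left _ _
  have hδε : δ ≤ ε / 20 := min_le_right _ _
  obtain ⟨C1, hC1⟩ := msq E hE2 m hm1 δ hδ0
  obtain ⟨C2, hC2⟩ := mr δ hδ0
  obtain ⟨C3, hC3⟩ := exists_nat_ge (6 * (m : ℝ) / δ)
  refine ⟨C1 + C2 + C3 + 1, fun H N hH hN hNE => ?_⟩
  have hHN : H ≤ N := le_trans (Nat.le_mul_of_pos_left H (by omega)) hN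
  obtain ⟨h1, h2⟩ := hC1 H N (by omega) (le_trans (Nat.mul_le_mul_right H (by omega)) hN) hNE
  have h3 := hC2 H N (by omega) (by omega) hHN
  have hH0 : (0 : ℝ) < H := by exact_mod_cast (by omega : 0 < H)
  have hN0 : (0 : ℝ) < N := by exact_mod_cast (by omega : 0 < N)
  have h4 : 6 * (m : ℝ) ≤ δ * H := by
    rw [div_le_iff₀ hδ0] at hC3
    refine hC3.trans ?_
    rw [mul_comm]
    apply mul_le_mul_of_nonneg_left _ hδ0.le
    exact_mod_cast (by omega : C3 ≤ H)
  have hloc : ∀ x, 2 * Z k d H x ≤ H + W (pp m) H x + 2 * |W l H x| + δ * H := by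
    intro x
    have := local_ineq k d H x
    unfold Z
    rw [← hm] at this
    have e : (((k : ℝ) + 1) * d) = m := by rw [hm]; push_cast; ring
    rw [e] at this
    linarith
  have hZ0 : ∀ x, 0 ≤ Z k d H x := fun x => by unfold Z; positivity
  have hc : ∑ x ∈ Icc 1 N, (1 : ℝ) = N := by simp
  constructor
  · rw [← sum_div, div_le_iff₀ hH0]
    have h5 := sum_le_sum fun x (_ : x ∈ Icc 1 N) => hloc x
    rw [← mul_sum] at h5
    have h6 : ∑ x ∈ Icc 1 N, ((H : ℝ) + W (pp m) H x + 2 * |W l H x| + δ * H) =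
        N * H + ∑ x ∈ Icc 1 N, W (pp m) H x + 2 * ∑ x ∈ Icc 1 N, |W l H x| + N * (δ * H) := by
      simp only [sum_add_distrib, mul_sum, sum_const, Nat.card_Icc, Nat.add_sub_cancel, nsmul_eq_mul]
    rw [h6] at h5
    have h7 := (abs_le.1 h1).2
    have : 0 < (H : ℝ) * N := by positivity
    nlinarith
  · have h5 : ∀ x, (Z k d H x / H) ^ 2 ≤ (1 / (4 * H ^ 2)) *
        ((H : ℝ) ^ 2 + 2 * H * W (pp m) H x + W (pp m) H x ^ 2 + 7 * H * (2 * |W l H x| + δ * H)) := by
      intro x
      have h6 : (Z k d H x / H) ^ 2 = (1 / (4 * H ^ 2)) * (2 * Z k d H x) ^ 2 := by field_simp; ring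
      rw [h6]
      apply mul_le_mul_of_nonneg_left _ (by positivity)
      have h7 := pow_le_pow_left₀ (by have := hZ0 x; linarith : (0 : ℝ) ≤ 2 * Z k d H x) (hloc x) 2
      refine h7.trans ?_
      have hr : |W (pp m) H x| ≤ H := W_abs_le (fun n => ((pp_pm m).abs n).le) H x
      have hl : |W l H x| ≤ H := W_abs_le (fun n => (l_pm.abs n).le) H x
      set r := W (pp m) H x
      set u := |W l H x|
      have hu : 0 ≤ u := abs_nonneg _
      have hr' := abs_le.1 hr
      have he : 0 ≤ 2 * u + δ * H := by positivity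
      have he2 : 2 * u + δ * H ≤ 3 * H := by nlinarith
      have e : (H + r + 2 * u + δ * H) ^ 2 = (H : ℝ) ^ 2 + 2 * H * r + r ^ 2 + (2 * (H + r) + (2 * u + δ * H)) * (2 * u + δ * H) := by ring
      rw [e]
      have : (2 * (H + r) + (2 * u + δ * H)) * (2 * u + δ * H) ≤ 7 * H * (2 * u + δ * H) := by
        apply mul_le_mul_of_nonneg_right _ he
        linarith
      linarith
    refine (sum_le_sum fun x _ => h5 x).trans ?_
    rw [← mul_sum]
    have h6 : ∑ x ∈ Icc 1 N, ((H : ℝ) ^ 2 + 2 * H * W (pp m) H x + W (pp m) H x ^ 2 + 7 * H * (2 * |W l H x| + δ * H)) =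
        N * (H : ℝ) ^ 2 + 2 * H * ∑ x ∈ Icc 1 N, W (pp m) H x + ∑ x ∈ Icc 1 N, W (pp m) H x ^ 2 +
          7 * H * (2 * ∑ x ∈ Icc 1 N, |W l H x| + N * (δ * H)) := by
      simp only [sum_add_distrib, mul_sum, sum_const, Nat.card_Icc, Nat.add_sub_cancel, nsmul_eq_mul, mul_add]
      ring
    rw [h6]
    have h7 := (abs_le.1 h1).2
    rw [one_div, inv_mul_le_iff₀ (by positivity)]
    have hp : 0 < (H : ℝ) ^ 2 * N := by positivity
    have h8 : 2 * (H : ℝ) * ∑ x ∈ Icc 1 N, W (pp m) H x ≤ 2 * H * (δ * H * N) :=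
      mul_le_mul_of_nonneg_left h7 (by positivity)
    have h9 : 7 * (H : ℝ) * (2 * ∑ x ∈ Icc 1 N, |W l H x| + N * (δ * H)) ≤ 7 * H * (2 * (δ * H * N) + N * (δ * H)) := by
      apply mul_le_mul_of_nonneg_left _ (by positivity)
      linarith
    have h10 : δ * ((H : ℝ) ^ 2 * N) ≤ ε / 20 * (H ^ 2 * N) := mul_le_mul_of_nonneg_right hδε hp.le
    nlinarith

end Pool.Agent.R509.TT
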