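import Pool.Agent.R509.TT.Loc
import Pool.Agent.Y958.TC.Two
import Pool.Agent.Y958.U.Fin
import Pool.Agent.Y958.U.Lam
import Pool.Agent.Y958.U.Diag

/-!
Library R509.TT (helper509): one exceptional set for the two point theorem; the mean square of the
local averages of `λ(n) λ(n + h)`.
-/

set_option autoImplicit false

namespace Pool.Agent.R509.TT

open Finset
open Pool.Agent.H376R2.MR (lam)
open Pool.Agent.H807R2.Dav (ee norm_ee ee_add ee_int ee_pow ee_zero)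
open Pool.Agent.TH823.MRS (ExpoSmall expo_lam win_l1 lam_bdd lam_flip)
open Pool.Agent.Y958.U (LZ s_avc diag' lam_real)
open Pool.Agent.Y958.TC (two Av)

/-- the Liouville function -/
noncomputable def l (n : ℕ) : ℝ := (-1 : ℝ) ^ ArithmeticFunction.cardFactors n

lemma l_pm : Pm l := fun _ => neg_one_pow_eq_or ℝ _

/-- the two point theorem, one exceptional set for all the shifts -/
theorem exc : ∃ E : Set ℕ, LZ E ∧ ∀ h : ℕ, 1 ≤ h → ∀ δ : ℝ, 0 < δ →
    ∃ N₀ : ℕ, ∀ N : ℕ, N₀ ≤ N → N ∉ E → |∑ n ∈ range N, l n * l (n + h)| ≤ δ * N := by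
  have hE : ExpoSmall (fun n => (lam n : ℂ)) := fun ε hε A hA => expo_lam ε hε A hA
  have h1 : ∀ p : ℕ × ℕ, LZ {N | 1 / ((p.2 : ℝ) + 1) < |Av N (fun n => (fun _ => (1 : ℝ)) n * lam n * lam (n + (p.1 + 1)))|} := by
    intro p
    exact two s_avc lam lam_bdd lam_flip hE (p.1 + 1) (by omega) 1 le_rfl (fun _ => 1) (by simp) (by simp) _ (by positivity)
  obtain ⟨E, hE1, hE2⟩ := diag' _ h1
  refine ⟨E, hE1, fun h hh δ hδ => ?_⟩
  obtain ⟨j, hj⟩ := exists_nat_one_div_lt hδ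
  obtain ⟨N₀, hN₀⟩ := hE2 (h - 1, j)
  refine ⟨N₀ + 1, fun N hN hNE => ?_⟩
  by_contra hcon
  apply hNE
  apply hN₀ N _ (by omega)
  rw [Set.mem_ofPred_eq]
  have hN0 : (0 : ℝ) < N := by exact_mod_cast (by omega : 0 < N)
  have h2 : Av N (fun n => (fun _ => (1 : ℝ)) n * lam n * lam (n + (h - 1 + 1))) = (∑ n ∈ range N, l n * l (n + h)) / N := by
    unfold Av
    congr 1
    apply sum_congr rfl
    intro n _
    unfold l
    rw [← lam_real, ← lam_real, show h - 1 + 1 = h by omega]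
    ring
  rw [h2, abs_div, abs_of_pos hN0, lt_div_iff₀ hN0]
  push Not at hcon
  refine lt_of_le_of_lt ?_ hcon
  exact mul_le_mul_of_nonneg_right hj.le hN0.le

/-- the theorem of Matomaki and Radziwill in the windows `(x, x + H]` -/
theorem mr (δ : ℝ) (hδ : 0 < δ) : ∃ C : ℕ, ∀ H N : ℕ, C ≤ H → C ≤ N → H ≤ N →
    ∑ x ∈ Icc 1 N, |W l H x| ≤ δ * H * N := by
  have hE : ExpoSmall (fun n => (lam n : ℂ)) := fun ε hε A hA => expo_lam ε hε A hA
  obtain ⟨W₀, X₀, h1⟩ := win_l1 (fun n => (lam n : ℂ)) hE δ hδ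
  refine ⟨W₀ + X₀, fun H N hH hN hHN => ?_⟩
  have h2 := h1 N (by omega) H (by omega) hHN 0
  refine le_trans ?_ h2
  have h3 : ∀ x ∈ Icc 1 N, |W l H x| = ‖∑ n ∈ Icc 1 (3 * N), if n ≤ x + H ∧ x + H < n + H then (lam n : ℂ) * ee ((n : ℝ) * 0) else 0‖ := by
    intro x hx
    rw [mem_Icc] at hx
    rw [← sum_filter]
    have h4 : (Icc 1 (3 * N)).filter (fun n => n ≤ x + H ∧ x + H < n + H) = (range H).image (fun i => x + 1 + i) := by
      ext n
      simp only [mem_filter, mem_Icc, mem_image, mem_range]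
      constructor
      · rintro ⟨⟨a, b⟩, c, d⟩
        exact ⟨n - x - 1, by omega, by omega⟩
      · rintro ⟨i, hi, rfl⟩
        omega
    rw [h4, sum_image (fun a _ b _ h => by simpa using h)]
    have h5 : ∑ i ∈ range H, (lam (x + 1 + i) : ℂ) * ee (((x + 1 + i : ℕ) : ℝ) * 0) = ((W l H x : ℝ) : ℂ) := by
      unfold W l
      push_cast
      apply sum_congr rfl
      intro i _
      rw [mul_zero, ee_zero, mul_one]
      unfold lam
      push_cast
      rfl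
    rw [h5, Complex.norm_real, Real.norm_eq_abs]
  rw [sum_congr rfl h3]
  have h6 : ∑ x ∈ Icc 1 N, ‖∑ n ∈ Icc 1 (3 * N), if n ≤ x + H ∧ x + H < n + H then (lam n : ℂ) * ee ((n : ℝ) * 0) else 0‖ =
      ∑ z ∈ (Icc 1 N).image (fun x => x + H), ‖∑ n ∈ Icc 1 (3 * N), if n ≤ z ∧ z < n + H then (lam n : ℂ) * ee ((n : ℝ) * 0) else 0‖ := by
    rw [sum_image (fun a _ b _ h => by simpa using h)]
  rw [h6]
  apply sum_le_sum_of_subset_of_nonneg
  · intro z hz
    rw [mem_image] at hz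
    obtain ⟨x, hx, rfl⟩ := hz
    rw [mem_Icc] at hx
    rw [mem_range]
    omega
  · intros; positivity

/-- the product of two values -/
noncomputable def pp (m : ℕ) : ℕ → ℝ := fun n => l n * l (n + m)

lemma pp_pm (m : ℕ) : Pm (pp m) := l_pm.mul (l_pm.shift m)

lemma pp_pp (m n : ℕ) : pp m n * pp m (n + m) = pp (2 * m) n := by
  unfold pp
  have := l_pm.sq (n + m)
  calc l n * l (n + m) * (l (n + m) * l (n + m + m)) = l n * l (n + m + m) * (l (n + m) * l (n + m)) := by ring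
    _ = l n * l (n + 2 * m) := by rw [this, mul_one]; congr 2; omega

/-- the recursion -/
lemma chain (H N : ℕ) (δ : ℝ) (hδ : 0 ≤ δ) : ∀ (T m : ℕ),
    (∀ i ≤ T, |∑ x ∈ Icc 1 N, W (pp (2 ^ i * m)) H x| ≤ δ * H * N) → ((2 ^ T * m : ℕ) : ℝ) ≤ δ * H → 2 ^ T * m ≤ H →
    ∑ x ∈ Icc 1 N, W (pp m) H x ^ 2 ≤ (1 / 3 + 2 / 3 * (1 / 4) ^ T + 14 / 3 * δ) * H ^ 2 * N := by
  intro T
  induction T with
  | zero =>
    intro m _ _ _
    have h1 : ∀ x ∈ Icc 1 N, W (pp m) H x ^ 2 ≤ (H : ℝ) ^ 2 := by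
      intro x _
      have h2 := W_abs_le (fun n => ((pp_pm m).abs n).le) H x
      rw [← sq_abs]
      exact pow_le_pow_left₀ (abs_nonneg _) h2 2
    refine (sum_le_sum h1).trans ?_
    rw [sum_const, Nat.card_Icc, Nat.add_sub_cancel, nsmul_eq_mul]
    have h3 : 0 ≤ δ * ((H : ℝ) ^ 2 * N) := by positivity
    nlinarith
  | succ T ih =>
    intro m h1 h2 h3
    have hp : (2 : ℕ) ^ (T + 1) * m = 2 ^ T * (2 * m) := by ring
    have h4 := ih (2 * m) (fun i hi => by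
      have := h1 (i + 1) (by omega)
      rwa [show 2 ^ (i + 1) * m = 2 ^ i * (2 * m) by ring] at this) (by rw [← hp]; exact h2) (by rw [← hp]; exact h3)
    have hmH : m ≤ H := by
      refine le_trans ?_ h3
      exact Nat.le_mul_of_pos_left m (by positivity)
    have h5 := tent_sum (pp_pm m) m H N hmH
    have h6 : (fun n => pp m n * pp m (n + m)) = pp (2 * m) := by funext n; exact pp_pp m n
    rw [h6] at h5
    have h7 := h1 1 (by omega)
    rw [pow_one] at h7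
    have h8 := (abs_le.1 h7).2
    have h9 : (m : ℝ) ≤ δ * H := by
      refine le_trans ?_ h2
      have : m ≤ 2 ^ (T + 1) * m := Nat.le_mul_of_pos_left m (by positivity)
      exact_mod_cast this
    have hH0 : (0 : ℝ) ≤ H := Nat.cast_nonneg H
    have hN0 : (0 : ℝ) ≤ N := Nat.cast_nonneg N
    have h10 : 2 * (H : ℝ) * ∑ x ∈ Icc 1 N, W (pp (2 * m)) H x ≤ 2 * H * (δ * H * N) :=
      mul_le_mul_of_nonneg_left h8 (by positivity)
    have h11 : 12 * (m : ℝ) * H * N ≤ 12 * (δ * H) * H * N := by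
      have : (0 : ℝ) ≤ H * N := by positivity
      nlinarith
    rw [pow_succ]
    nlinarith

/-- the mean square of the local means of `λ(n) λ(n + m)` -/
theorem msq (E : Set ℕ) (hE : ∀ h : ℕ, 1 ≤ h → ∀ δ : ℝ, 0 < δ →
    ∃ N₀ : ℕ, ∀ N : ℕ, N₀ ≤ N → N ∉ E → |∑ n ∈ range N, l n * l (n + h)| ≤ δ * N)
    (m : ℕ) (hm : 1 ≤ m) (ε : ℝ) (hε : 0 < ε) :
    ∃ C : ℕ, ∀ H N : ℕ, C ≤ H → C * H ≤ N → N ∉ E →
      |∑ x ∈ Icc 1 N, W (pp m) H x| ≤ ε * H * N ∧
      ∑ x ∈ Icc 1 N, W (pp m) H x ^ 2 ≤ (1 / 3 + ε) * H ^ 2 * N := by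
  obtain ⟨T, hT⟩ := exists_pow_lt_of_lt_one (show 0 < ε / 2 by positivity) (show (1 / 4 : ℝ) < 1 by norm_num)
  set δ : ℝ := ε / 20 with hδ
  have hδ0 : 0 < δ := by positivity
  choose! N₀ hN₀ using fun h (hh : 1 ≤ h) => hE h hh (δ / 2) (by positivity)
  obtain ⟨K, hK⟩ := exists_nat_ge (((2 ^ T * m : ℕ) : ℝ) / δ)
  obtain ⟨K', hK'⟩ := exists_nat_ge (8 / δ)
  refine ⟨K + K' + 2 ^ T * m + ∑ i ∈ range (T + 1), N₀ (2 ^ i * m) + 1, fun H N hH hN hNE => ?_⟩
  set C := K + K' + 2 ^ T * m + ∑ i ∈ range (T + 1), N₀ (2 ^ i * m) + 1 with hC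
  have hH0 : (0 : ℝ) < H := by exact_mod_cast (by omega : 0 < H)
  have hCN : C ≤ N := le_trans (Nat.le_mul_of_pos_right C (by omega)) hN
  have hN0 : (0 : ℝ) < N := by exact_mod_cast (by omega : 0 < N)
  have h1 : ∀ i ≤ T, |∑ x ∈ Icc 1 N, W (pp (2 ^ i * m)) H x| ≤ δ * H * N := by
    intro i hi
    have h2 := W_sum (fun n => ((pp_pm (2 ^ i * m)).abs n).le) H N
    have h3 : N₀ (2 ^ i * m) ≤ N := by
      have := single_le_sum (f := fun i => N₀ (2 ^ i * m)) (fun _ _ => Nat.zero_le _) (mem_range.2 (show i < T + 1 by omega))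
      omega
    have h4 := hN₀ (2 ^ i * m) (Nat.mul_pos (by positivity) (by omega)) N h3 hNE
    have h5 : |∑ n ∈ range N, pp (2 ^ i * m) n| ≤ δ / 2 * N := h4
    refine h2.trans ?_
    have h6 : 2 * ((H : ℝ) + 1) ≤ δ / 2 * N := by
      have h7 : (C : ℝ) * H ≤ N := by exact_mod_cast hN
      have h8 : (8 : ℝ) / δ ≤ C := hK'.trans (by rw [hC]; push_cast; nlinarith [Nat.cast_nonneg (α := ℝ) K, Nat.cast_nonneg (α := ℝ) (2 ^ T * m), (show (0:ℝ) ≤ ∑ i ∈ range (T + 1), (N₀ (2 ^ i * m) : ℝ) from sum_nonneg fun _ _ => Nat.cast_nonneg _), (show (0:ℝ) ≤ 2 ^ T * m by positivity)])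
      rw [div_le_iff₀ hδ0] at h8
      have h9 : (1 : ℝ) ≤ H := by exact_mod_cast (by omega : 1 ≤ H)
      have h10 : 8 * (H : ℝ) ≤ δ * N := by
        calc 8 * (H : ℝ) ≤ C * δ * H := mul_le_mul_of_nonneg_right h8 hH0.le
          _ = δ * (C * H) := by ring
          _ ≤ δ * N := mul_le_mul_of_nonneg_left h7 hδ0.le
      linarith
    calc (H : ℝ) * (|∑ n ∈ range N, pp (2 ^ i * m) n| + 2 * (H + 1)) ≤ H * (δ / 2 * N + δ / 2 * N) := by
          apply mul_le_mul_of_nonneg_left _ hH0.le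
          linarith
      _ = δ * H * N := by ring
  have h2 : ((2 ^ T * m : ℕ) : ℝ) ≤ δ * H := by
    rw [div_le_iff₀ hδ0] at hK
    refine hK.trans ?_
    rw [mul_comm]
    apply mul_le_mul_of_nonneg_left _ hδ0.le
    exact_mod_cast (by omega : K ≤ H)
  have h3 := chain H N δ hδ0.le T m h1 h2 (by omega)
  constructor
  · have h4 := h1 0 (by omega)
    rw [pow_zero, one_mul] at h4
    refine h4.trans ?_
    have : 0 < (H : ℝ) * N := by positivity
    rw [hδ]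
    nlinarith
  · refine h3.trans ?_
    have : 0 < (H : ℝ) ^ 2 * N := by positivity
    have h5 : 1 / 3 + 2 / 3 * (1 / 4 : ℝ) ^ T + 14 / 3 * δ ≤ 1 / 3 + ε := by
      rw [hδ]; linarith
    calc _ = (1 / 3 + 2 / 3 * (1 / 4 : ℝ) ^ T + 14 / 3 * δ) * (H ^ 2 * N) := by ring
      _ ≤ (1 / 3 + ε) * (H ^ 2 * N) := mul_le_mul_of_nonneg_right h5 this.le
      _ = _ := by ring

end Pool.Agent.R509.TT
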